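import Pool.Agent.MP_1246c0_nt.H12.SpecA

/-! Residue symbols over the rationals. -/

set_option autoImplicit false

namespace Pool.Agent.MP_1246c0_nt.H12

open Finset

namespace QR

theorem f2_cases (x : F2) : x = 0 ∨ x = 1 := by
  revert x; decide

theorem sg_qr (l : ℕ) [Fact l.Prime] (x : ZMod l) (hx : x ≠ 0) :
    sg (qr x) = quadraticChar (ZMod l) x := by
  unfold qr sg
  by_cases h : IsSquare x
  · rw [if_pos h, if_pos rfl, (quadraticChar_one_iff_isSquare hx).2 h]; simp
  · rw [if_neg h, if_neg (by decide), quadraticChar_neg_one_iff_not_isSquare.2 h]; simp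

theorem sg_add (a b : F2) : sg (a + b) = sg a * sg b := by
  rcases f2_cases a with rfl | rfl <;> rcases f2_cases b with rfl | rfl
  · simp [sg]
  · simp [sg]
  · simp [sg]
  · have : (1 + 1 : F2) = 0 := by decide
    rw [this]; simp [sg]

theorem sg_inj {a b : F2} (h : sg a = sg b) : a = b := by
  rcases f2_cases a with rfl | rfl <;> rcases f2_cases b with rfl | rfl
  · rfl
  · simp [sg] at h; norm_num at h
  · simp [sg] at h; norm_num at h
  · rfl

theorem mul (l : ℕ) (x y : ZMod l) (hl : Gd 0 l) (hx : x ≠ 0) (hy : y ≠ 0) :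
    qr (x * y) = qr x + qr y := by
  have : Fact l.Prime := ⟨hl.1⟩
  apply sg_inj
  rw [sg_add, sg_qr l _ (mul_ne_zero hx hy), sg_qr l x hx, sg_qr l y hy, map_mul]
  push_cast
  rfl

theorem neg (l : ℕ) (hl : Gd 0 l) : qr (-1 : ZMod l) = eps l := by
  have : Fact l.Prime := ⟨hl.1⟩
  unfold qr eps
  by_cases h : l % 4 = 3
  · rw [if_pos h, if_neg]
    rw [ZMod.exists_sq_eq_neg_one_iff]
    exact fun h' => h' h
  · rw [if_neg h, if_pos]
    rw [ZMod.exists_sq_eq_neg_one_iff]
    exact h

theorem odd {l : ℕ} (hl : Gd 0 l) : l % 2 = 1 :=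
  (hl.1.eq_two_or_odd).resolve_left hl.2.1

theorem rcp (l l' : ℕ) (hl : Gd 0 l) (hl' : Gd 0 l') (hne : l ≠ l') :
    lg l l' + lg l' l = eps l * eps l' := by
  have : Fact l.Prime := ⟨hl.1⟩
  have : Fact l'.Prime := ⟨hl'.1⟩
  have o := odd hl
  have o' := odd hl'
  unfold lg qr eps
  by_cases h : l % 4 = 3
  · by_cases h' : l' % 4 = 3
    · have := ZMod.exists_sq_eq_prime_iff_of_mod_four_eq_three h h' hne
      rw [if_pos h, if_pos h']
      by_cases s : IsSquare (l : ZMod l')
      · rw [if_pos s, if_neg (fun s' => this.1 s' s)]; decide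
      · rw [if_neg s, if_pos (this.2 s)]; decide
    · have h1 : l' % 4 = 1 := by omega
      have := ZMod.exists_sq_eq_prime_iff_of_mod_four_eq_one h1 hl.2.1
      rw [if_pos h, if_neg h']
      by_cases s : IsSquare (l : ZMod l')
      · rw [if_pos s, if_pos (this.1 s)]; decide
      · rw [if_neg s, if_neg (fun s' => s (this.2 s'))]; decide
  · have h1 : l % 4 = 1 := by omega
    have := ZMod.exists_sq_eq_prime_iff_of_mod_four_eq_one h1 hl'.2.1
    rw [if_neg h, zero_mul]
    by_cases s : IsSquare (l : ZMod l')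
    · rw [if_pos s, if_pos (this.2 s)]; decide
    · rw [if_neg s, if_neg (fun s' => s (this.1 s'))]; decide

open Classical in
/-- the indicator of the classes three and five modulo eight -/
noncomputable def dl (l : ℕ) : F2 := if lev l = 0 then 1 else 0

/-- the residue modulo eight from the two invariants -/
def rs (a b : F2) : ℕ := if a = 0 then (if b = 0 then 1 else 5) else (if b = 0 then 7 else 3)

theorem rs_add (a b a' b' : F2) : rs a b * rs a' b' % 8 = rs (a + a') (b + b') := by
  revert a b a' b'; decide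

theorem md8 (h : SDEC) {l : ℕ} (hl : Gd 0 l) : l % 8 = rs (eps l) (dl l) := by
  have o := odd hl
  have c := (h.cls l o hl.1.one_lt).1
  unfold rs eps dl
  by_cases h0 : lev l = 0
  · have := c.1 h0
    rw [if_pos h0]
    by_cases h3 : l % 4 = 3
    · rw [if_pos h3, if_neg (by decide), if_neg (by decide)]; omega
    · rw [if_neg h3, if_pos rfl, if_neg (by decide)]; omega
  · have := fun h => h0 (c.2 h)
    rw [if_neg h0]
    by_cases h3 : l % 4 = 3
    · rw [if_pos h3, if_neg (by decide), if_pos rfl]; omega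
    · rw [if_neg h3, if_pos rfl, if_pos rfl]; omega

theorem prod8 (h : SDEC) {ι : Type} [DecidableEq ι] (pr : ι → ℕ) (hp : ∀ i, Gd 0 (pr i))
    (T : Finset ι) : (∏ i ∈ T, pr i) % 8 = rs (∑ i ∈ T, eps (pr i)) (∑ i ∈ T, dl (pr i)) := by
  induction T using Finset.induction_on with
  | empty => simp [rs]
  | insert a T ha ih =>
    rw [prod_insert ha, sum_insert ha, sum_insert ha, Nat.mul_mod, ih, md8 h (hp a), rs_add]

theorem lab (h : SDEC) (ι : Type) [Fintype ι] [DecidableEq ι] (pr : ι → ℕ) (P : ℕ)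
    (hL : Lab pr P) : Squarefree (P * ∏ i, pr i) ∧ (P * ∏ i, pr i) % 8 = 5 ∧
      (P * ∏ i, pr i).primeFactors = SP pr P ∧ Gd 0 P ∧ lev P = 0 ∧ eps P = 0 := by
  have hm := hL.md
  have hP : Gd 0 P := ⟨hL.prime, by omega, Nat.zero_le _⟩
  have hnm : P ∉ univ.image pr := by
    rw [mem_image]
    rintro ⟨i, -, e⟩
    exact hL.ne i e
  have hpr : ∀ q ∈ SP pr P, q.Prime := by
    intro q hq
    rcases mem_insert.1 hq with rfl | hq
    · exact hL.prime
    · obtain ⟨i, -, rfl⟩ := mem_image.1 hq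
      exact (hL.odd i).1
  have e : P * ∏ i, pr i = ∏ q ∈ SP pr P, q := by
    unfold SP
    rw [prod_insert hnm, prod_image (fun a _ b _ e => hL.inj e)]
  refine ⟨?_, ?_, ?_, hP, ?_, ?_⟩
  · rw [e]
    refine Finset.squarefree_prod_of_pairwise_isCoprime ?_ (fun q hq => (hpr q hq).prime.squarefree)
    intro a ha b hb hab
    exact Nat.coprime_iff_isRelPrime.1 ((Nat.coprime_primes (hpr a ha) (hpr b hb)).2 hab)
  · have hd : ∑ i, dl (pr i) = 0 := by
      unfold dl
      rw [Finset.sum_boole]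
      have := hL.ev
      exact (ZMod.natCast_eq_zero_iff_even).2 (by convert this)
    rw [Nat.mul_mod, prod8 h pr hL.odd, hL.es, hd, hm]
    rfl
  · rw [e]
    exact Nat.primeFactors_prod hpr
  · exact (h.cls P (odd hP) hL.prime.one_lt).1.2 (Or.inr hm)
  · unfold eps
    rw [if_neg (by omega)]

theorem sym (ι : Type) [Fintype ι] [DecidableEq ι] (pr : ι → ℕ) (P : ℕ) (hi : pr.Injective)
    (hp : ∀ i, Gd 0 (pr i)) : Sym i2 i2 (Sm0 pr P) (fun i => eps (pr i)) univ := by
  intro i _ j _
  simp only [i2, RingHom.id_apply, Sm0, R0]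
  by_cases e : i = j
  · subst e
    rw [if_pos rfl, if_pos rfl]
    generalize eps (pr i) + ∑ c ∈ (SP pr P).erase (pr i), lg c (pr i) = x
    generalize eps (pr i) = y
    revert x y
    decide
  · have e' : pr i ≠ pr j := fun h => e (hi h)
    rw [if_neg e', if_neg e'.symm, if_neg e, add_zero]
    exact rcp _ _ (hp i) (hp j) e'

end QR

theorem rowQR : OfQR := fun h =>
  { mul := QR.mul
    neg := QR.neg
    sg := QR.sg_qr
    rcp := QR.rcp
    lab := QR.lab h
    sym := QR.sym }

end Pool.Agent.MP_1246c0_nt.H12
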