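import Pool.Agent.MP_1246c0_nt.H12.SpecR

/-! Rows RMN and PAR. -/

namespace Pool.Agent.MP_1246c0_nt.H12

open Finset

namespace RMN

theorem ok_mono {Λ ι : Type} [CommRing Λ] [Fintype ι] [DecidableEq ι] {st : Λ →+* Λ}
    {au : Λ →+* F2} {S : Matrix ι ι Λ} {c : ι → Λ} {B P J : Finset ι} {b : Bool} {m z m' z' : ℕ}
    (h : Ok st au S c B P J b m z) (hm : m' ≤ m) (hz : z ≤ z') : Ok st au S c B P J b m' z' :=
  ⟨h.sym, h.row, h.col, h.sub, h.typ, fun ε => hm.trans (h.cnt ε), hm.trans h.pen, h.sml.trans hz⟩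

theorem lin_le (a : ℕ) (h : 13 ≤ a) : 66 * a ≤ 2 ^ (a - 3) := by
  induction a, h using Nat.le_induction with
  | base => norm_num
  | succ a h ih =>
    rw [show a + 1 - 3 = (a - 3) + 1 by omega, pow_succ]
    omega

theorem lin_le' (q : ℕ) (h : 5 ≤ q) : 5 * q + 4 ≤ 2 ^ q := by
  induction q, h using Nat.le_induction with
  | base => norm_num
  | succ a h ih =>
    rw [pow_succ]
    omega

theorem sum1 (A tp : ℕ) (hA : 12 ≤ A) :
    ∑ a ∈ Ioc A tp, (9 / 10 : ℝ) ^ 2 ^ (a - 3) ≤ 2 * (1 / 1000) ^ (A + 1) := by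
  have h1 : ∑ a ∈ Ioc A tp, (9 / 10 : ℝ) ^ 2 ^ (a - 3) ≤
      ∑ a ∈ Ico (A + 1) (tp + 1), (1 / 1000 : ℝ) ^ a := by
    rw [show Ico (A + 1) (tp + 1) = Ioc A tp from by ext a; simp only [mem_Ico, mem_Ioc]; omega]
    refine sum_le_sum fun a ha => ?_
    have h2 := lin_le a (by have := (mem_Ioc.1 ha).1; omega)
    refine (pow_le_pow_of_le_one (by norm_num) (by norm_num) h2).trans ?_
    rw [pow_mul]
    exact pow_le_pow_left₀ (by positivity) (by norm_num) a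
  refine h1.trans ((geom_sum_Ico_le_of_lt_one (by norm_num) (by norm_num)).trans ?_)
  rw [div_le_iff₀ (by norm_num)]
  have : (0 : ℝ) ≤ (1 / 1000) ^ (A + 1) := by positivity
  linarith

theorem sum2 (A tp j0 : ℕ) (hj : 25 ≤ j0) :
    ∑ a ∈ Ioc A tp, (9 / 10 : ℝ) ^ 2 ^ (jj tp j0 a / 5) ≤ 10 * (9 / 10) ^ j0 := by
  have h1 : ∑ a ∈ Ioc A tp, (9 / 10 : ℝ) ^ 2 ^ (jj tp j0 a / 5) ≤
      ∑ a ∈ Ioc A tp, (9 / 10 : ℝ) ^ jj tp j0 a := by
    refine sum_le_sum fun a ha => pow_le_pow_of_le_one (by norm_num) (by norm_num) ?_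
    have h2 := (mem_Ioc.1 ha).2
    have h3 : 25 ≤ jj tp j0 a := by unfold jj; omega
    have h4 := lin_le' (jj tp j0 a / 5) (by omega)
    omega
  have h2 : ∑ a ∈ Ioc A tp, (9 / 10 : ℝ) ^ jj tp j0 a =
      ∑ j ∈ (Ioc A tp).image (jj tp j0), (9 / 10 : ℝ) ^ j := by
    rw [sum_image]
    intro a ha a' ha' e
    have := (mem_Ioc.1 ha).2
    have := (mem_Ioc.1 ha').2
    unfold jj at e
    omega
  have h3 : ∑ j ∈ (Ioc A tp).image (jj tp j0), (9 / 10 : ℝ) ^ j ≤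
      ∑ j ∈ Ico j0 (j0 + tp + 1), (9 / 10 : ℝ) ^ j := by
    refine sum_le_sum_of_subset_of_nonneg (fun j hj => ?_) fun _ _ _ => by positivity
    obtain ⟨a, ha, rfl⟩ := mem_image.1 hj
    have := (mem_Ioc.1 ha).2
    unfold jj
    exact mem_Ico.2 (by omega)
  refine h1.trans (h2.le.trans (h3.trans
    ((geom_sum_Ico_le_of_lt_one (by norm_num) (by norm_num)).trans (le_of_eq ?_))))
  ring

end RMN

theorem rowRMN : OfRMN := by
  intro hA ⟨C, x0, hM⟩ hO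
  refine ⟨C, max 55 (5 * x0), ?_⟩
  intro Λ ι _ _ _ _ st au τ lv e B S0 S c tp j0 a a' b hL hN hj ha hb hS hc hx
  have h55 : 55 ≤ j0 := (le_max_left _ _).trans hj
  have hx0 : 5 * x0 ≤ j0 := (le_max_right _ _).trans hj
  obtain ⟨h1, -⟩ := hO Λ ι st au lv e B S0 S c tp j0 a a' b hN h55 ha hb hS hc hx
  have h2 := hA.res Λ ι {l // a' ≤ lv l} st (B.filter fun l => a' ≤ lv l)
    (B.filter fun l => a' ≤ lv l) Subtype.val (fun H => ind (BadM au τ (2 ^ nn tp j0 a)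
      (2 ^ nn tp j0 a) (S.submatrix Subtype.val Subtype.val + H) (fun l => c l.1)
      (univ.filter fun l => lv l.1 = a') b)) Subtype.val_injective
  have h3 : (univ.filter fun l : {l // a' ≤ lv l} => l.1 ∈ B.filter fun l => a' ≤ lv l) =
      univ.filter fun l => l.1 ∈ B := by
    ext l
    simp [l.2]
  rw [h3] at h2
  refine le_of_eq_of_le h2 ?_
  have hN1 : 2 ^ nn tp j0 a ≤ xx tp j0 a := Nat.pow_le_pow_right (by norm_num) (min_le_right _ _)
  refine hM Λ _ st au τ _ _ _ _ _ _ b (xx tp j0 a) _ hL ?_ (RMN.ok_mono h1 ?_ ?_)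
    Nat.one_le_two_pow hN1 hN1
  · refine le_trans ?_ Nat.lt_two_pow_self.le
    unfold jj
    omega
  · unfold xx
    rw [← pow_mul]
    exact Nat.pow_le_pow_right (by norm_num) (by omega)
  · split_ifs with h
    · refine Nat.pow_le_pow_right (by norm_num) (Nat.div_le_div_right ?_)
      unfold jj
      split_ifs at hb <;> omega
    · exact Nat.zero_le _

theorem rowPAR : SPAR := by
  intro C C' j1
  set K : ℝ := |C| + 2 * |C'| with hK
  have hK0 : 0 ≤ K := by positivity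
  obtain ⟨A0, hA0⟩ := exists_pow_lt_of_lt_one (x := 1 / (20 * (K + 1))) (y := (1 / 2 : ℝ))
    (by positivity) (by norm_num)
  obtain ⟨A, hA, hA1⟩ : ∃ A, 12 ≤ A ∧ K * (2 * (1 / 2) ^ (A + 1)) ≤ 1 / 10 := by
    refine ⟨max 12 A0, le_max_left _ _, ?_⟩
    have h1 : (1 / 2 : ℝ) ^ (max 12 A0 + 1) ≤ (1 / 2) ^ A0 :=
      pow_le_pow_of_le_one (by norm_num) (by norm_num) (by omega)
    have h2 := h1.trans hA0.le
    rw [le_div_iff₀ (by positivity)] at h2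
    have h3 : (0 : ℝ) ≤ (1 / 2) ^ (max 12 A0 + 1) := by positivity
    nlinarith
  set t : ℝ := (1 / 500) ^ (A + 1) with ht
  have ht0 : 0 < t := by positivity
  obtain ⟨j2, hj2⟩ := exists_pow_lt_of_lt_one (x := t / (100 * (K + 1))) (y := (9 / 10 : ℝ))
    (by positivity) (by norm_num)
  obtain ⟨j0, hj, hj', hj1⟩ : ∃ j0, j1 ≤ j0 ∧ 25 ≤ j0 ∧ K * (10 * (9 / 10) ^ j0) ≤ t / 10 := by
    refine ⟨j1 + 25 + j2, by omega, by omega, ?_⟩
    have h1 : (9 / 10 : ℝ) ^ (j1 + 25 + j2) ≤ (9 / 10) ^ j2 :=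
      pow_le_pow_of_le_one (by norm_num) (by norm_num) (by omega)
    have h2 := h1.trans hj2.le
    rw [le_div_iff₀ (by positivity)] at h2
    have h3 : (0 : ℝ) ≤ (9 / 10) ^ (j1 + 25 + j2) := by positivity
    nlinarith
  refine ⟨A, j0, t / 5, by positivity, hj, by omega, fun tp => ?_⟩
  have h1 : ∑ a ∈ Ioc A tp, C / 2 ^ 2 ^ nn tp j0 a +
      ∑ a ∈ Ioc A tp, 2 * (C' * (9 / 10) ^ 2 ^ nn tp j0 a) ≤
      K * (∑ a ∈ Ioc A tp, (9 / 10 : ℝ) ^ 2 ^ (a - 3) +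
        ∑ a ∈ Ioc A tp, (9 / 10 : ℝ) ^ 2 ^ (jj tp j0 a / 5)) := by
    rw [← sum_add_distrib, ← sum_add_distrib, mul_sum]
    refine sum_le_sum fun a _ => ?_
    have h2 : (9 / 10 : ℝ) ^ 2 ^ nn tp j0 a ≤
        (9 / 10 : ℝ) ^ 2 ^ (a - 3) + (9 / 10 : ℝ) ^ 2 ^ (jj tp j0 a / 5) := by
      unfold nn
      rcases min_choice (a - 3) (jj tp j0 a / 5) with e | e <;> rw [e]
      · exact le_add_of_nonneg_right (by positivity)
      · exact le_add_of_nonneg_left (by positivity)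
    refine le_trans ?_ (mul_le_mul_of_nonneg_left h2 hK0)
    generalize 2 ^ nn tp j0 a = N
    have h3 : C / 2 ^ N ≤ |C| * (9 / 10) ^ N := by
      rw [div_eq_mul_inv, ← inv_pow]
      exact (mul_le_mul_of_nonneg_right (le_abs_self C) (by positivity)).trans
        (mul_le_mul_of_nonneg_left (pow_le_pow_left₀ (by norm_num) (by norm_num) N) (abs_nonneg C))
    have h4 : C' * (9 / 10) ^ N ≤ |C'| * (9 / 10) ^ N :=
      mul_le_mul_of_nonneg_right (le_abs_self C') (by positivity)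
    rw [hK]
    linarith
  have h2 := mul_le_mul_of_nonneg_left (add_le_add (RMN.sum1 A tp hA) (RMN.sum2 A tp j0 hj')) hK0
  have h3 : (1 / 1000 : ℝ) ^ (A + 1) = (1 / 2) ^ (A + 1) * t := by
    rw [ht, ← mul_pow]
    norm_num
  rw [h3] at h2
  have h4 := mul_le_mul_of_nonneg_right hA1 ht0.le
  nlinarith

end Pool.Agent.MP_1246c0_nt.H12
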