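import Pool.Agent.MP_1246c0_nt.H25.SpecC

/-! The action of the group ring on vectors modulo two. -/

namespace Pool.Agent.MP_1246c0_nt.H25

open Matrix Pool.Agent.MP_1246c0_nt.H12

namespace LMD

variable {ℓ : ℕ}

theorem zero (A : Matrix (Fin ℓ) (Fin ℓ) ℤ) {j : ℕ}
    (h : ∀ x, ∃ y, toLin' A x - 2 • y ∈ Mu (Fin ℓ → ℤ) (j + 1)) :
    (Int.castRingHom F2).mapMatrix A = 0 := by
  ext i k
  obtain ⟨y, z, e⟩ := h (Pi.single k 1)
  have e' : 2 ^ (j + 1) • z i = (A *ᵥ Pi.single k 1) i - 2 • y i := congrFun e i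
  simp only [mulVec_single_one, col_apply, nsmul_eq_mul] at e'
  refine (ZMod.intCast_zmod_eq_zero_iff_dvd _ 2).2 ⟨y i + 2 ^ j * z i, ?_⟩
  push_cast at e' ⊢
  linear_combination -e'

theorem frob {Λ : Type} [CommRing Λ] (h : (2 : Λ) = 0) (g : Λ) (k : ℕ) :
    (g - 1) ^ 2 ^ k = g ^ 2 ^ k - 1 := by
  induction k with
  | zero => simp
  | succ k ih =>
    rw [pow_succ, pow_mul, pow_mul, ih]
    linear_combination (1 - g ^ 2 ^ k) * h

end LMD

open LMD in
theorem rowLMD : OfLMD := by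
  intro _ ℓ J μ Λ _ st au g h L
  have A := h.adm
  have ta : bar μ.g ^ 2 ^ μ.a - 1 = 0 := by
    have := zero (μ.g ^ 2 ^ μ.a - 1) fun x => ⟨toLin' μ.s x, by
      simpa only [map_sub, toLin'_pow, toLin'_one, LinearMap.sub_apply, LinearMap.id_apply]
        using A.hs x⟩
    rwa [map_sub, map_pow, map_one] at this
  have cm : bar μ.g * bar μ.u = bar μ.u * bar μ.g := by
    have := zero (μ.g * μ.u - μ.u * μ.g) fun x => ⟨0, by
      simpa only [map_sub, toLin'_mul, LinearMap.sub_apply, LinearMap.comp_apply, smul_zero,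
        sub_zero] using A.tu x⟩
    rwa [map_sub, map_mul, map_mul, sub_eq_zero] at this
  obtain ⟨φ, hφ⟩ := L.lift (Algebra.adjoin F2 {bar μ.g}) ⟨_, Algebra.self_mem_adjoin_singleton _ _⟩
    ((map_ofNat (algebraMap F2 _) 2).symm.trans (map_zero (algebraMap F2 _)))
    (Subtype.ext (by
      obtain ⟨k, hk⟩ := Nat.exists_eq_add_of_le (le_of_add_le_left h.le)
      change bar μ.g ^ 2 ^ μ.n = 1
      rw [hk, pow_add, pow_mul, sub_eq_zero.1 ta, one_pow]))
  obtain ⟨ψ, hψ⟩ : ∃ ψ : Λ →+* Mb ℓ, ψ g = bar μ.g :=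
    ⟨(Algebra.adjoin F2 {bar μ.g}).val.toRingHom.comp φ, congrArg Subtype.val hφ⟩
  have hp : ∀ k, ψ ((g - 1) ^ 2 ^ k) = bar μ.g ^ 2 ^ k - 1 := fun k => by
    rw [frob L.lr.two, map_sub, map_pow, map_one, hψ]
  refine ⟨ψ, hψ, (hp _).trans ta, fun ha => ?_, fun ha => ?_, hψ ▸ cm, ?_⟩
  · have := zero (μ.u * (μ.g ^ 2 ^ (μ.a - 1) - 1)) fun x => ⟨x, by
      simpa only [map_sub, toLin'_mul, toLin'_pow, toLin'_one, LinearMap.sub_apply,
        LinearMap.comp_apply, LinearMap.id_apply] using A.hu ha x⟩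
    rw [map_mul, map_sub, map_pow, map_one] at this
    rw [hp, ((Commute.pow_left cm _).sub_left (Commute.one_left _)).eq]
    exact this
  · exact zero μ.u fun x => ⟨0, by simpa only [smul_zero, sub_zero] using A.h0 ha x⟩
  · obtain ⟨k, hk⟩ := A.nil
    have := zero (μ.u ^ k) fun x => ⟨0, by simpa only [smul_zero, sub_zero, toLin'_pow] using hk x⟩
    rw [map_pow] at this
    exact ⟨k, this⟩

end Pool.Agent.MP_1246c0_nt.H25
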