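import Pool.Agent.MP_1246c0_nt.H25.SpecG

/-! The conditions on a face are equivalence relations with few classes. -/

namespace Pool.Agent.MP_1246c0_nt.H25

open Finset Matrix Function Pool.Agent.MP_db5b97_nt.H85
open Pool.Agent.MP_1246c0_nt.H12

namespace AMQ

section Gen

variable {ι N N' : Type} [DecidableEq ι] [AddCommGroup N] [AddCommGroup N'] {W : Finset ι}
  {x0 x1 y0 y1 : ι → ℕ} {f g : (ι → ℕ) → N} {o : ι}

theorem Mu_le {j k : ℕ} (h : j ≤ k) {x : N} (hx : x ∈ Mu N k) : x ∈ Mu N j := by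
  obtain ⟨y, rfl⟩ := hx
  obtain ⟨c, rfl⟩ := Nat.exists_eq_add_of_le h
  exact ⟨2 ^ c • y, by simp [pow_add, mul_smul]⟩

theorem Mu_map (L : N →+ N') {j : ℕ} {x : N} (hx : x ∈ Mu N j) : L x ∈ Mu N' j := by
  obtain ⟨y, rfl⟩ := hx
  exact ⟨L y, by simp⟩

theorem Mu_smul {j k : ℕ} {c : ℤ} (hc : 2 ^ k ∣ c) {x : N} (hx : x ∈ Mu N j) :
    c • x ∈ Mu N (k + j) := by
  obtain ⟨y, rfl⟩ := hx
  obtain ⟨e, rfl⟩ := hc
  refine ⟨e • y, ?_⟩
  simp only [nsmulAddMonoidHom_apply, ← natCast_zsmul, smul_smul]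
  congr 1
  push_cast
  ring

theorem cW_congr (h : ∀ W' ⊆ W, f (W'.piecewise x1 x0) = g (W'.piecewise y1 y0)) :
    cW W x0 x1 f = cW W y0 y1 g :=
  sum_congr rfl fun W' h' => by rw [h W' (mem_powerset.1 h')]

theorem cW_mem (A : AddSubgroup N) (h : ∀ W' ⊆ W, f (W'.piecewise x1 x0) ∈ A) :
    cW W x0 x1 f ∈ A :=
  sum_mem fun W' h' => zsmul_mem (h W' (mem_powerset.1 h')) _

theorem cW_sub : cW W x0 x1 (fun x => f x - g x) = cW W x0 x1 f - cW W x0 x1 g := by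
  simp only [cW, smul_sub, sum_sub_distrib]

theorem cW_map (L : N →+ N') : L (cW W x0 x1 f) = cW W x0 x1 fun x => L (f x) := by
  simp only [cW, map_sum, map_zsmul]

theorem cW_lin (L : N →ₗ[ℤ] N') : L (cW W x0 x1 f) = cW W x0 x1 fun x => L (f x) :=
  cW_map L.toAddMonoidHom

theorem cW_empty : cW ∅ x0 x1 f = f x0 := by simp [cW]

theorem pw_loc (h : ∀ o ∈ W, x1 o = y1 o) {W' : Finset ι} (h' : W' ⊆ W) :
    W'.piecewise x1 x0 = W'.piecewise y1 x0 :=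
  piecewise_congr _ (fun o ho => h o (h' ho)) fun _ _ => rfl

theorem pw_ins {W' : Finset ι} (h : o ∉ W') :
    (insert o W').piecewise x1 x0 = W'.piecewise x1 (update x0 o (x1 o)) := by
  funext l
  by_cases e : l = o
  · subst e
    simp [h]
  · simp [piecewise, e]

theorem cW_erase (h : o ∈ W) : cW W x0 x1 f =
    cW (W.erase o) x0 x1 f - cW (W.erase o) (update x0 o (x1 o)) x1 f := by
  conv_lhs => rw [← insert_erase h]
  rw [cW, sum_powerset_insert (notMem_erase o W), cW, cW, sub_eq_add_neg, ← sum_neg_distrib]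
  congr 1
  refine sum_congr rfl fun W' h' => ?_
  have : o ∉ W' := fun e => notMem_erase o W (mem_powerset.1 h' e)
  rw [card_insert_of_notMem this, pw_ins this, pow_succ, mul_neg_one, neg_smul]

theorem upd_loc (z : ℕ) : ∀ l ∈ W.erase o, update x1 o z l = x1 l :=
  fun _ h => update_of_ne (ne_of_mem_erase h) _ _

theorem cW_split (h : o ∈ W) (z z' : ℕ) : cW W (update x0 o z) (update x1 o z') f =
    cW (W.erase o) (update x0 o z) x1 f - cW (W.erase o) (update x0 o z') x1 f := by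
  rw [cW_erase h, update_self, update_idem]
  congr 1 <;> exact cW_congr fun W' h' => by rw [pw_loc (upd_loc z') h']

theorem cW_const (h : W.Nonempty) (c : N) : cW W x0 x1 (fun _ => c) = 0 := by
  obtain ⟨o, h⟩ := h
  rw [cW_erase h]
  exact sub_self _

theorem defect (ε : ι → ℤ) (hε : ∀ o, 2 ∣ ε o)
    (h : ∀ W' ⊆ W, W' ≠ W → cW W' x0 x1 f ∈ Mu N W'.card)
    (hg : ∀ W' ⊆ W, g (W'.piecewise x1 x0) = (∏ o ∈ W \ W', (1 + ε o)) • f (W'.piecewise x1 x0)) :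
    cW W x0 x1 g - cW W x0 x1 f ∈ Mu N W.card := by
  have e : cW W x0 x1 g = ∑ T ∈ W.powerset, (∏ o ∈ T, ε o) • cW (W \ T) x0 x1 f := by
    simp only [cW, smul_sum]
    rw [sum_comm' (t' := W.powerset) (s' := fun W' => (W \ W').powerset)]
    · refine sum_congr rfl fun W' h' => ?_
      rw [hg W' (mem_powerset.1 h'), prod_one_add, sum_smul, smul_sum]
      exact sum_congr rfl fun T _ => smul_comm _ _ _
    · intro T W'
      simp only [mem_powerset, subset_sdiff]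
      exact ⟨fun ⟨a, b, c⟩ => ⟨⟨a, c.symm⟩, b⟩, fun ⟨⟨a, c⟩, b⟩ => ⟨a, b, c.symm⟩⟩
  rw [e, ← add_sum_erase _ _ (empty_mem_powerset W), prod_empty, one_smul, sdiff_empty,
    add_sub_cancel_left]
  refine sum_mem fun T hT => ?_
  obtain ⟨h1, h2⟩ := mem_erase.1 hT
  rw [mem_powerset] at h2
  rw [← add_tsub_cancel_of_le (card_le_card h2), ← card_sdiff_of_subset h2]
  refine Mu_smul ?_ (h _ sdiff_subset (sdiff_ssubset h2 (nonempty_iff_ne_empty.2 h1)).ne)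
  rw [← prod_const]
  exact prod_dvd_prod_of_dvd _ _ fun o _ => hε o

theorem ivt_sub (z : Ax0) {A : AddSubgroup N} {ψ ψ' : Ga → N} (h : Ivt A ψ) (h' : Ivt A ψ') :
    Ivt A fun x => ψ x - ψ' x := by
  obtain ⟨U, a, b⟩ := h
  obtain ⟨U', a', b'⟩ := h'
  refine ⟨U ⊓ U', z.opi _ _ a a', fun x u hu => ?_⟩
  beta_reduce
  rw [sub_sub_sub_comm]
  exact sub_mem (b x u hu.1) (b' x u hu.2)

theorem ivt_mono {A A' : AddSubgroup N} (e : A ≤ A') {ψ : Ga → N} (h : Ivt A ψ) : Ivt A' ψ :=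
  h.imp fun _ h => ⟨h.1, fun x u hu => e (h.2 x u hu)⟩

theorem ivt_cW (z : Ax0) {A : AddSubgroup N} {ψ : (ι → ℕ) → Ga → N}
    (h : ∀ W' ⊆ W, Ivt A (ψ (W'.piecewise x1 x0))) : Ivt A fun x => cW W x0 x1 (ψ · x) := by
  induction W using Finset.induction_on generalizing x0 with
  | empty => simpa [cW] using h ∅ Subset.rfl
  | insert o W ho ih =>
    simp only [cW_erase (mem_insert_self o W), erase_insert ho]
    refine ivt_sub z (ih fun W' h' => h W' (h'.trans (subset_insert o W))) (ih fun W' h' => ?_)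
    rw [← pw_ins fun e => ho (h' e)]
    exact h _ (insert_subset_insert o h')

theorem sgn_add (a b : F2) : (-1 : ℤ) ^ (a + b).val = (-1) ^ a.val * (-1) ^ b.val := by
  revert a b
  decide

theorem sgn_sum (s : Finset ι) (c : ι → F2) :
    (-1 : ℤ) ^ (∑ o ∈ s, c o).val = ∏ o ∈ s, (-1) ^ (c o).val := by
  induction s using Finset.induction_on with
  | empty => simp
  | insert o s ho ih => rw [sum_insert ho, prod_insert ho, sgn_add, ih]

theorem acn_eq (d n : ℕ) (T : Module.End ℤ N) (h : Ga) (x : N) :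
    acn d n T h x = (-1 : ℤ) ^ (chi d h).val • (T ^ (kap n h).val) x := by
  rw [acn]
  rcases neg_one_pow_eq_or ℤ (chi d h).val with e | e
  · rw [e, (neg_one_pow_eq_one_iff_even (by decide)).1 e |>.neg_one_pow]
    simp
  · rw [e, (neg_one_pow_eq_neg_one_iff_odd (by decide)).1 e |>.neg_one_pow]
    simp

/-- the obstruction as an additive map -/
noncomputable def EoH (d n : ℕ) (T : Module.End ℤ N) (p : Ga × Ga) : (Ga → N) →+ N :=
  AddMonoidHom.mk' (fun ψ => Eo d n T ψ p) fun ψ ψ' => by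
    simp only [Eo, Pi.add_apply, map_add, smul_add]
    abel

theorem Eo_sub (d n : ℕ) (T : Module.End ℤ N) (p : Ga × Ga) (ψ ψ' : Ga → N) :
    Eo d n T (ψ - ψ') p = Eo d n T ψ p - Eo d n T ψ' p := map_sub (EoH d n T p) ψ ψ'

theorem Eo_smul (d n : ℕ) (T : Module.End ℤ N) (p : Ga × Ga) (k : ℕ) (ψ : Ga → N) :
    Eo d n T (k • ψ) p = k • Eo d n T ψ p := map_nsmul (EoH d n T p) k ψ

theorem Eo_cW (d n : ℕ) (T : Module.End ℤ N) (p : Ga × Ga) (ψ : (ι → ℕ) → Ga → N) :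
    Eo d n T (cW W x0 x1 ψ) p = cW W x0 x1 fun x => Eo d n T (ψ x) p := cW_map (EoH d n T p)

theorem Eo_mem (d n : ℕ) (T : Module.End ℤ N) (p : Ga × Ga) {ψ : Ga → N} {j : ℕ}
    (h1 : ψ p.1 ∈ Mu N j) (h2 : ψ p.2 ∈ Mu N j) : Eo d n T ψ p ∈ Mu N j :=
  sub_mem (nsmul_mem h1 2) (sub_mem h2 (Mu_map (acn d n T p.1).toAddMonoidHom h2))

theorem cW_apply {ψ : (ι → ℕ) → Ga → N} (h : Ga) : cW W x0 x1 ψ h = cW W x0 x1 (ψ · h) :=
  cW_map (Pi.evalAddMonoidHom (fun _ => N) h)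

theorem dig {t t' : ℤ} {m : ℕ} (h : 2 ^ m ∣ t - t') (e : ((t / 2 ^ m : ℤ) : F2) = (t' / 2 ^ m : ℤ)) :
    2 ^ (m + 1) ∣ t - t' := by
  obtain ⟨k, hk⟩ := h
  rw [eq_add_of_sub_eq' hk, Int.add_mul_ediv_left _ _ (by positivity), Int.cast_add,
    add_eq_left] at e
  rw [hk, pow_succ]
  exact mul_dvd_mul_left _ ((ZMod.intCast_zmod_eq_zero_iff_dvd k 2).1 e)

theorem mem_Mu_pi {ℓ j : ℕ} {x : Fin ℓ → ℤ} : x ∈ Mu (Fin ℓ → ℤ) j ↔ ∀ k, 2 ^ j ∣ x k := by
  refine ⟨fun ⟨y, e⟩ k => ⟨y k, by simp [← e]⟩, fun h => ?_⟩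
  choose y hy using h
  exact ⟨y, funext fun k => by simp [hy]⟩

end Gen

section Face

variable {ι : Type} [Fintype ι] [DecidableEq ι] {ℓ : ℕ} {Φ : Frm} {μ : Md ℓ} {P i : ℕ} {i1 : ι}
  {D W : Finset ι} {a b : ι} {X : Set (ι → ℕ)} {v : Option ι → Vb ℓ}
  {ψ Γ : (ι → ℕ) → Ga → Fin ℓ → ℤ} {y0 y1 : ι → ℕ}

/-- the data of a face all of whose proper faces are good -/
structure Fc (Φ : Frm) (μ : Md ℓ) (P i : ℕ) (i1 : ι) (D W : Finset ι) (a b : ι) (X : Set (ι → ℕ))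
    (v : Option ι → Vb ℓ) (ψ Γ : (ι → ℕ) → Ga → Fin ℓ → ℤ) (y0 y1 : ι → ℕ) : Prop where
  cc : SCC
  ax : Ax1 Φ
  cb : Cb Φ P i1 D a b X
  gm : Gm Φ μ P D a b X (lf (v (some a))) Γ
  sub : W ⊆ D
  vx : Vx X W y0 y1
  hv : ∀ s ∈ D, s ≠ a → v (some s) = 0
  hx : ∀ x ∈ X, CC Φ μ x P i (ψ x) ∧ red Φ x (ψ x) = v
  lt : W.card < i
  cd : ∀ W' ⊆ W, W' ≠ W → Cd Φ D i ψ Γ W' y0 y1

theorem row_eq (C : SCC) (ax : Ax1 Φ) (cb : Cb Φ P i1 D a b X) {x x' : ι → ℕ} (hx : x ∈ X)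
    (hx' : x' ∈ X) {ρ : Option ι ⊕ Bool} (hρ : ∀ l ∈ D, ρ ≠ .inl (some l)) (φ : Ga → Fin ℓ → ℤ) :
    Eo (dd x P) μ.n (toLin' μ.g) φ (rws Φ x P ρ) =
      Eo (dd x' P) μ.n (toLin' μ.g) φ (rws Φ x' P ρ) := by
  have m8 := cb.m8 x hx x' hx'
  obtain ⟨h1, h2, h3⟩ := ax.v.codd _ (C.lab _ Φ x P i1 ax (cb.lb x hx)).2.1
  obtain ⟨h1', h2', h3'⟩ := ax.v.codd _ (C.lab _ Φ x' P i1 ax (cb.lb x' hx')).2.1
  have e1 : chi (dd x P) (Φ.sg 2) = chi (dd x' P) (Φ.sg 2) := by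
    rw [h1, h1', eps, eps, show dd x P % 4 = dd x' P % 4 by omega]
  have e3 : chi (dd x P) Φ.f2 = chi (dd x' P) Φ.f2 := by rw [h3, h3', m8]
  suffices h : rws Φ x P ρ = rws Φ x' P ρ ∧
      chi (dd x P) (rws Φ x P ρ).1 = chi (dd x' P) (rws Φ x P ρ).1 by
    rw [← h.1, Eo, Eo, acn, acn, h.2]
  rcases ρ with (_ | l) | _ | _
  · exact ⟨rfl, h2.trans h2'.symm⟩
  · have hl : l ∉ D := fun h => hρ l h rfl
    exact ⟨by simp only [rws, po, Option.elim, cb.fix x hx x' hx' l hl], cb.row x hx x' hx' l hl⟩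
  · exact ⟨rfl, (ax.v.ccj _).trans (ax.v.ccj _).symm⟩
  · refine ⟨by simp only [rws, p4, m8], ?_⟩
    simp only [rws, p4]
    split_ifs
    · exact h2.trans h2'.symm
    · rw [ax.z.cmul, ax.z.cmul, e1, e3]
    · exact e3

omit [Fintype ι] [DecidableEq ι] in
theorem qs_sg {q : ℕ} (h : q.Prime) (h0 : q ≠ y0 a) (h1 : q ≠ y1 a) :
    Qs Φ P D a b y0 y1 (Φ.sg q) := by
  unfold Qs
  iterate 7 right
  exact ⟨q, h, h0, h1, rfl⟩

omit [Fintype ι] in
theorem vx0 (vx : Vx X W y0 y1) : y0 ∈ X := by simpa using vx ∅ (empty_subset W)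

theorem qs_lab (cb : Cb Φ P i1 D a b X) (vx : Vx X W y0 y1) (ha : a ∈ W) {l : ι} (hl : l ≠ a) :
    Qs Φ P D a b y0 y1 (Φ.sg (y0 l)) :=
  qs_sg ((cb.lb _ (vx0 vx)).odd l).1 (cb.nx _ (vx0 vx) _ (vx0 vx) l a hl)
    (piecewise_eq_of_mem W y1 y0 ha ▸ cb.nx _ (vx0 vx) _ (vx W Subset.rfl) l a hl)

theorem row_qs (cb : Cb Φ P i1 D a b X) (vx : Vx X W y0 y1) (sub : W ⊆ D) (ha : a ∈ W)
    {ρ : Option ι ⊕ Bool} (hρ : ∀ l ∈ insert b D, ρ ≠ .inl (some l)) :
    Qs Φ P D a b y0 y1 (rws Φ (W.piecewise y1 y0) P ρ).1 ∧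
      Qs Φ P D a b y0 y1 (rws Φ (W.piecewise y1 y0) P ρ).2 := by
  rcases ρ with (_ | l) | _ | _
  · refine ⟨.inr (.inl rfl), qs_sg Nat.prime_two ((cb.lb _ (vx0 vx)).odd a).2.1.symm ?_⟩
    exact piecewise_eq_of_mem W y1 y0 ha ▸ ((cb.lb _ (vx W Subset.rfl)).odd a).2.1.symm
  · obtain ⟨h1, h2⟩ : l ≠ b ∧ l ∉ D := by simpa using fun h => hρ l h rfl
    simp only [rws, po, Option.elim, piecewise_eq_of_notMem W y1 y0 fun h => h2 (sub h)]
    refine ⟨?_, qs_lab cb vx ha fun e => h2 (e ▸ cb.ad)⟩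
    unfold Qs
    iterate 6 right
    exact .inl ⟨l, h2, h1, rfl⟩
  · simp [rws, Qs]
  · simp only [rws, p4]
    split_ifs <;> simp [Qs]

theorem gam_mem {u : Fin ℓ → ℤ} (gm : Gm Φ μ P D a b X u Γ) (vx : Vx X W y0 y1) (sub : W ⊆ D)
    {h : Ga} (hq : a ∈ W → Qs Φ P D a b y0 y1 h) :
    cW W y0 y1 (Γ · h) ∈ Mu _ W.card := by
  by_cases ha : a ∈ W
  · rw [gm.g3 W sub ha _ _ h vx (hq ha)]
    exact zero_mem _
  · simpa only [erase_eq_of_notMem ha] using gm.g2 W sub _ _ h vx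

omit [DecidableEq ι] in
theorem Pw_smul (x : ι → ℕ) (w : Option ι ⊕ Bool → Vb ℓ) (k : ℕ) (σ : Ga → Fin ℓ → ℤ) :
    Pw Φ μ x P w (2 ^ k • σ) = 2 ^ k * Pw Φ μ x P w σ := by
  rw [Pw, Pw, mul_sum]
  refine sum_congr rfl fun ρ _ => ?_
  rw [Eo_smul, dotProduct_smul, nsmul_eq_mul, Nat.cast_pow, Nat.cast_ofNat]

namespace Fc

variable (F : Fc Φ μ P i i1 D W a b X v ψ Γ y0 y1)
include F

theorem lab {x : ι → ℕ} (hx : x ∈ X) {l : ℕ} (hl : l.Prime) : chi (dd x P) (Φ.sg l) = 0 ↔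
    l ≠ P ∧ (∀ o, l ≠ x o) ∧ ¬(l = 2 ∧ dd x P % 4 = 3) := by
  have := (F.cc.lab _ Φ x P i1 F.ax (F.cb.lb x hx)).2.2.2.2.2.2.2.2.2.2.2.2 l hl
  rw [← not_exists, ← not_or, ← not_or, ← this]
  generalize chi (dd x P) (Φ.sg l) = c
  revert c
  decide

theorem val {h : Ga} (h1 : ∀ x ∈ X, ψ x h ∈ Mu _ i) (hq : a ∈ W → Qs Φ P D a b y0 y1 h) :
    cW W y0 y1 (fun x => ψ x h - Γ x h) ∈ Mu _ W.card := by
  rw [cW_sub]
  exact sub_mem (cW_mem _ fun W' h' => Mu_le F.lt.le (h1 _ (F.vx W' h')))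
    (gam_mem F.gm F.vx F.sub hq)

theorem Eo_eq {ρ : Option ι ⊕ Bool} (hρ : ∀ l ∈ D, ρ ≠ .inl (some l)) :
    Eo (dd (W.piecewise y1 y0) P) μ.n (toLin' μ.g) (fun h => cW W y0 y1 fun x => ψ x h - Γ x h)
      (rws Φ (W.piecewise y1 y0) P ρ) =
    cW W y0 y1 (fun x => Eo (dd x P) μ.n (toLin' μ.g) (ψ x) (rws Φ x P ρ)) -
      Eo (dd (W.piecewise y1 y0) P) μ.n (toLin' μ.g) (fun h => cW W y0 y1 (Γ · h))
        (rws Φ (W.piecewise y1 y0) P ρ) := by
  have e : (fun h => cW W y0 y1 fun x => ψ x h - Γ x h)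
      = cW W y0 y1 ψ - fun h => cW W y0 y1 (Γ · h) := funext fun h => by
    rw [cW_sub, Pi.sub_apply, cW_apply]
  rw [e, Eo_sub, Eo_cW]
  congr 1
  exact cW_congr fun W' h' => row_eq F.cc F.ax F.cb (F.vx W Subset.rfl) (F.vx W' h') hρ _

theorem Eo_val {ρ : Option ι ⊕ Bool} (hρ : ∀ l, ρ ≠ .inl (some l))
    (h : ∀ x ∈ X, Eo (dd x P) μ.n (toLin' μ.g) (ψ x) (rws Φ x P ρ) ∈ Mu _ i) :
    Eo (dd (W.piecewise y1 y0) P) μ.n (toLin' μ.g) (fun h => cW W y0 y1 fun x => ψ x h - Γ x h)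
      (rws Φ (W.piecewise y1 y0) P ρ) ∈ Mu _ W.card := by
  rw [F.Eo_eq fun l _ => hρ l]
  exact sub_mem (cW_mem _ fun W' h' => Mu_le F.lt.le (h _ (F.vx W' h'))) (Eo_mem _ _ _ _
    (gam_mem F.gm F.vx F.sub fun ha => (row_qs F.cb F.vx F.sub ha fun l _ => hρ l).1)
    (gam_mem F.gm F.vx F.sub fun ha => (row_qs F.cb F.vx F.sub ha fun l _ => hρ l).2))

theorem coc (h h' : Ga) : (cW W y0 y1 fun x => ψ x (h * h') - Γ x (h * h')) -
    (cW W y0 y1 fun x => ψ x h - Γ x h) - acn (dd (W.piecewise y1 y0) P) μ.n (toLin' μ.g) h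
      (cW W y0 y1 fun x => ψ x h' - Γ x h') ∈ Mu _ W.card := by
  have h1 : cW W y0 y1 (fun x => ψ x (h * h') - ψ x h - acn (dd x P) μ.n (toLin' μ.g) h (ψ x h'))
      ∈ Mu _ W.card := cW_mem _ fun W' e => Mu_le F.lt.le ((F.hx _ (F.vx W' e)).1.coc h h')
  have h2 := Mu_le (j := W.card) (by rw [card_erase_eq_ite]; split_ifs <;> omega)
    (F.gm.g1 W F.sub y0 y1 h h' F.vx)
  have h3 := defect (W := W) (x0 := y0) (x1 := y1)
    (f := fun x => acn (dd (W.piecewise y1 y0) P) μ.n (toLin' μ.g) h (ψ x h' - Γ x h'))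
    (g := fun x => acn (dd x P) μ.n (toLin' μ.g) h (ψ x h' - Γ x h'))
    (fun o => (-1) ^ (chi (y0 o) h + chi (y1 o) h).val - 1)
    (fun o => by
      generalize chi (y0 o) h + chi (y1 o) h = c
      revert c
      decide)
    (fun W' e ne => by
      have := Mu_map (acn (dd (W.piecewise y1 y0) P) μ.n (toLin' μ.g) h).toAddMonoidHom
        ((F.cd W' e ne).1 h')
      have l := F.lt
      have l' := card_le_card e
      rwa [cW_map, min_eq_left (by omega)] at this)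
    (fun W' e => by
      simp only [add_sub_cancel, acn_eq, smul_smul, ← sgn_sum, ← sgn_add]
      rw [(F.cc.lab _ Φ _ P i1 F.ax (F.cb.lb _ (F.vx W' e))).2.2.2.2.2.2.2.2.2.2.2.1,
        (F.cc.lab _ Φ _ P i1 F.ax (F.cb.lb _ (F.vx W Subset.rfl))).2.2.2.2.2.2.2.2.2.2.2.1,
        add_left_comm, ← sum_ite_mem_eq (W \ W'), ← sum_add_distrib]
      congr 4
      refine sum_congr rfl fun o _ => ?_
      by_cases h1 : o ∈ W'
      · simp [h1, e h1]
      · by_cases h2 : o ∈ W <;> simp [h1, h2, add_assoc, CharTwo.add_self_eq_zero])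
  convert add_mem (sub_mem h1 h2) h3 using 1
  rw [cW_lin]
  simp only [cW_sub, map_sub]
  abel

theorem unr {l : ℕ} (hl : l.Prime) (h : chi (dd (W.piecewise y1 y0) P) (Φ.sg l) = 0 ∨ l = P) :
    cW W y0 y1 (fun x => ψ x (Φ.sg l) - Γ x (Φ.sg l)) ∈ Mu _ W.card := by
  have ht := F.vx W Subset.rfl
  have h0 := vx0 F.vx
  rcases h with h | rfl
  swap
  · exact F.val (fun x hx => (F.hx x hx).1.unr l hl (.inr rfl)) fun ha => qs_sg hl
      ((F.cb.lb _ h0).ne a).symm (piecewise_eq_of_mem W y1 y0 ha ▸ ((F.cb.lb _ ht).ne a).symm)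
  obtain ⟨n1, n2, n3⟩ := (F.lab ht hl).1 h
  have key : ∀ x ∈ X, (∀ o, l ≠ x o) → ψ x (Φ.sg l) ∈ Mu _ W.card := fun x hx e =>
    Mu_le F.lt.le ((F.hx x hx).1.unr l hl (.inl ((F.lab hx hl).2 ⟨n1, e, by
      have := F.cb.m8 x hx _ ht
      omega⟩)))
  have na : a ∈ W → l ≠ y1 a := fun ha => piecewise_eq_of_mem W y1 y0 ha ▸ n2 a
  rw [cW_sub]
  by_cases e : ∃ o, l = y0 o
  swap
  · push Not at e
    refine sub_mem (cW_mem _ fun W' h' => key _ (F.vx W' h') fun o => ?_)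
      (gam_mem F.gm F.vx F.sub fun ha => qs_sg hl (e a) (na ha))
    by_cases h1 : o ∈ W'
    · simpa [h1, h' h1] using n2 o
    · simpa [h1] using e o
  obtain ⟨o, rfl⟩ := e
  have ho : o ∈ W := not_not.1 fun h => n2 o (piecewise_eq_of_notMem W y1 y0 h).symm
  have no : y0 o ≠ y1 o := piecewise_eq_of_mem W y1 y0 ho ▸ n2 o
  have up : ∀ W' ⊆ W.erase o, W'.piecewise y1 (update y0 o (y1 o)) ∈ X ∧
      W'.piecewise y1 (update y0 o (y1 o)) o = y1 o := fun W' h' => by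
    rw [← pw_ins fun e => notMem_erase o W (h' e)]
    exact ⟨F.vx _ (insert_subset ho (h'.trans (erase_subset o W))), piecewise_insert_self _ _ _⟩
  have hc := card_erase_add_one ho
  rw [cW_erase ho, sub_right_comm]
  refine sub_mem ?_ (cW_mem _ fun W' h' => key _ (up W' h').1 fun s => ?_)
  swap
  · by_cases e : o = s
    · rw [← e, (up W' h').2]
      exact no
    · exact F.cb.nx _ h0 _ (up W' h').1 o s e
  have g4 : o = a → cW W y0 y1 (Γ · (Φ.sg (y0 o))) =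
      cW (W.erase o) y0 y1 fun _ => lf (v (some a)) := by
    rintro rfl
    have : cW (W.erase o) (update y0 o (y1 o)) y1 (Γ · (Φ.sg (y0 o))) = 0 :=
      cW_mem ⊥ fun W' h' => (F.gm.g4 _ (up W' h').1).2 _ h0 (by rw [(up W' h').2]; exact no)
    rw [cW_erase ho, this, sub_zero]
    refine cW_congr fun W' h' => ?_
    have := (F.gm.g4 _ (F.vx W' (h'.trans (erase_subset o W)))).1
    rwa [piecewise_eq_of_notMem W' y1 y0 fun e => notMem_erase o W (h' e)] at this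
  have g3 : o ≠ a → cW W y0 y1 (Γ · (Φ.sg (y0 o))) ∈ Mu _ W.card := fun e =>
    gam_mem F.gm F.vx F.sub fun ha => qs_lab F.cb F.vx ha e
  rcases (W.erase o).eq_empty_or_nonempty with e | e
  · have r : ψ y0 (Φ.sg (y0 o)) - lf (v (some o)) ∈ Mu _ W.card := by
      rw [← hc, e, mem_Mu_pi, ← (F.hx _ h0).2]
      refine fun k => (ZMod.intCast_zmod_eq_zero_iff_dvd _ 2).1 ?_
      simp [lf, red, po]
    by_cases ha : o = a
    · rwa [g4 ha, e, cW_empty, cW_empty, ← ha]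
    · rw [F.hv o (F.sub ho) ha, show lf (0 : Vb ℓ) = 0 from rfl, sub_zero] at r
      rw [e, cW_empty]
      exact sub_mem r (g3 ha)
  · have r := (F.cd _ (erase_subset o W) (erase_ne_self.2 ho)).2 e o (F.sub ho) (notMem_erase o W)
    rw [hc, min_eq_left F.lt.le] at r
    refine sub_mem r ?_
    by_cases ha : o = a
    · rw [g4 ha, cW_const e]
      exact zero_mem _
    · exact g3 ha

theorem coh : Cc Φ (dd (W.piecewise y1 y0) P) P μ.n (toLin' μ.g) (Mu _ W.card)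
    fun h => cW W y0 y1 fun x => ψ x h - Γ x h where
  coc := F.coc
  inv := ivt_cW F.ax.z (ψ := fun x h => ψ x h - Γ x h) fun W' e => ivt_sub F.ax.z
    (ivt_mono (fun _ => Mu_le F.lt.le) (F.hx _ (F.vx W' e)).1.inv)
    (ivt_mono bot_le (F.gm.g5 _ (F.vx W' e)))
  unr := fun _ => F.unr
  nrm := F.val (fun x hx => (F.hx x hx).1.nrm) fun _ => .inl rfl
  two := fun e => F.Eo_val (ρ := .inl none) (by simp) fun x hx => (F.hx x hx).1.two (by
    have := F.cb.m8 x hx _ (F.vx W Subset.rfl)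
    omega)
  four := F.Eo_val (ρ := .inr true) (by simp) fun x hx => (F.hx x hx).1.four

theorem pair (R : SPR) {J : ℕ} (ok : μ.Ok J) (hi : i ≤ J) {w : Option ι ⊕ Bool → Vb ℓ}
    (hw : W1 Φ μ (W.piecewise y1 y0) P i1 w) (h0 : ∀ l ∈ insert b D, w (.inl (some l)) = 0) :
    (2 : ℤ) ^ (W.card + 1) ∣
      Pw Φ μ (W.piecewise y1 y0) P w fun h => cW W y0 y1 fun x => ψ x h - Γ x h := by
  have ht := F.vx W Subset.rfl
  have key : ∀ (ρ : Option ι ⊕ Bool) (y y' : Fin ℓ → ℤ),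
      ((∀ l ∈ insert b D, ρ ≠ .inl (some l)) → y = y') → lf (w ρ) ⬝ᵥ y = lf (w ρ) ⬝ᵥ y' := by
    intro ρ y y' h
    by_cases e : ∀ l ∈ insert b D, ρ ≠ .inl (some l)
    · rw [h e]
    · push Not at e
      obtain ⟨l, hl, rfl⟩ := e
      rw [h0 l hl, show lf (0 : Vb ℓ) = 0 from rfl, zero_dotProduct, zero_dotProduct]
  have e : Pw Φ μ (W.piecewise y1 y0) P w (fun h => cW W y0 y1 fun x => ψ x h - Γ x h) =
      cW W y0 y1 (fun x => Pw Φ μ x P w (ψ x)) -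
        Pw Φ μ (W.piecewise y1 y0) P w fun h => cW W y0 y1 (Γ · h) := by
    simp only [Pw]
    rw [sum_congr rfl fun ρ _ => key ρ _ _ fun h => F.Eo_eq fun l hl => h l (mem_insert_of_mem hl)]
    simp only [dotProduct_sub, sum_sub_distrib, cW, dotProduct_sum, dotProduct_smul, smul_sum]
    rw [sum_comm]
  rw [e]
  refine dvd_sub (dvd_sum fun W' h' => dvd_smul_of_dvd _ ((pow_dvd_pow 2 F.lt).trans ?_)) ?_
  · have hx := F.vx W' (mem_powerset.1 h')
    have m8 := F.cb.m8 _ hx _ ht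
    refine R.dvd _ _ Φ μ _ P J i i1 w _ F.ax (F.cb.lb _ hx) ok hi
      ⟨hw.one, fun e => hw.two (by omega), fun o => ?_, fun e => hw.five (m8 ▸ e),
        fun e => hw.four (m8 ▸ e)⟩ (F.hx _ hx).1
    rcases o with _ | o
    · exact hw.fix none
    by_cases ho : o ∈ D
    · rw [h0 o (mem_insert_of_mem ho), zero_vecMul]
    · simpa only [po, Option.elim, F.cb.fix _ hx _ ht o ho] using hw.fix (some o)
  by_cases ha : a ∈ W
  · rw [Pw, sum_congr rfl fun ρ _ => key ρ _ 0 fun h => by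
      obtain ⟨h1, h2⟩ := row_qs (Φ := Φ) F.cb F.vx F.sub ha h
      rw [Eo, F.gm.g3 W F.sub ha _ _ _ F.vx h1, F.gm.g3 W F.sub ha _ _ _ F.vx h2]
      simp]
    simp
  · choose σ hσ using fun h => gam_mem F.gm F.vx F.sub (h := h) fun e => absurd e ha
    rw [← funext hσ, show (fun h => nsmulAddMonoidHom (2 ^ W.card) (σ h)) = 2 ^ W.card • σ from rfl,
      Pw_smul, pow_succ]
    exact mul_dvd_mul_left _ ((R.one _ _ Φ μ _ P i1 w F.ax (F.cb.lb _ ht)).2 hw σ)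

end Fc

omit [Fintype ι] in
theorem cd_loc {x0 x1 x1' : ι → ℕ} (h : ∀ o ∈ W, x1 o = x1' o) (c : Cd Φ D i ψ Γ W x0 x1) :
    Cd Φ D i ψ Γ W x0 x1' := by
  have e : ∀ f : (ι → ℕ) → Fin ℓ → ℤ, cW W x0 x1' f = cW W x0 x1 f := fun f =>
    cW_congr fun W' h' => by rw [pw_loc h h']
  simpa only [Cd, e] using c

omit [Fintype ι] in
theorem cd_iff {x0 x1 : ι → ℕ} {o : ι} (ho : o ∈ W) (z z' : ℕ) :
    Cd Φ D i ψ Γ W (update x0 o z) (update x1 o z') ↔
    (∀ h, cW (W.erase o) (update x0 o z) x1 (fun x => ψ x h - Γ x h) -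
      cW (W.erase o) (update x0 o z') x1 (fun x => ψ x h - Γ x h) ∈ Mu _ (min W.card (i - 1))) ∧
    ∀ s ∈ D, s ∉ W → cW (W.erase o) (update x0 o z) x1 (ψ · (Φ.sg (x0 s))) -
      cW (W.erase o) (update x0 o z') x1 (ψ · (Φ.sg (x0 s))) ∈ Mu _ (min (W.card + 1) i) := by
  simp only [Cd, cW_split ho, show W.Nonempty from ⟨o, ho⟩, forall_const]
  refine and_congr_right fun _ => forall_congr' fun s => forall₂_congr fun _ hs => ?_
  rw [update_of_ne (ne_of_mem_of_not_mem ho hs).symm]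

omit [Fintype ι] in
theorem vx_of {C : Finset ι → (ι → ℕ) → (ι → ℕ) → Prop} {x0 x1 : ι → ℕ} {o : ι} {z z' : ℕ}
    (h : Gf (· ∈ X) C (W.erase o) (update x0 o z) x1)
    (h' : Gf (· ∈ X) C (W.erase o) (update x0 o z') x1) :
    Vx X W (update x0 o z) (update x1 o z') := fun W' e => by
  by_cases ho : o ∈ W'
  · rw [← insert_erase ho, pw_ins (notMem_erase o W'), update_self, update_idem,
      pw_loc (upd_loc z') Subset.rfl]
    exact (h' _ (erase_subset_erase o e)).1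
  · have := subset_erase.2 ⟨e, ho⟩
    rw [pw_loc (upd_loc z') this]
    exact (h _ this).1

end Face

end AMQ

open AMQ in
theorem rowAMQ : OfAMQ := fun C R =>
  { eqv := fun _ _ _ _ _ _ _ _ _ _ _ _ _ ho => by
      simp only [cd_iff ho]
      refine ⟨fun z => by simp, fun h => ⟨fun g => ?_, fun s a b => ?_⟩,
        fun h h' => ⟨fun g => ?_, fun s a b => ?_⟩⟩
      · simpa using neg_mem (h.1 g)
      · simpa using neg_mem (h.2 s a b)
      · simpa using add_mem (h.1 g) (h'.1 g)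
      · simpa using add_mem (h.2 s a b) (h'.2 s a b)
    loc := fun _ _ _ _ _ _ _ _ _ _ _ _ _ =>
      ⟨⟨fun h => by simp [mem_Mu_pi], fun h => absurd h not_nonempty_empty⟩, cd_loc⟩
    amb := by
      intro ι _ _ ℓ Φ μ P J i Bu i1 D W a b o X v ψ Γ x0 x1 z' A ax ok cb gm i2 iJ hv hx sub ho
        g' hA ne
      simp only [cd_iff ho] at ne
      have hc := card_erase_add_one ho
      rcases A.eq_empty_or_nonempty with rfl | ⟨z0, hz0⟩
      · simp
      have ht := vx_of (hA z0 hz0).1 g' W Subset.rfl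
      obtain ⟨t, et⟩ : ∃ t, ∀ z, W.piecewise (update x1 o z') (update x0 o z) = t :=
        ⟨W.piecewise (update x1 o z') x0, fun z => piecewise_congr _ (fun _ _ => rfl)
          fun l hl => update_of_ne (ne_of_mem_of_not_mem ho hl).symm _ _⟩
      rw [et] at ht
      have cd0 := fun z hz => ((hA z hz).1 _ Subset.rfl).2
      rcases le_or_gt i W.card with hi | hi
      · refine (card_le_one.2 fun z hz y hy => not_not.1 fun e => ne z hz y hy e
          ⟨fun h => ?_, fun s hs hs' => ?_⟩).trans (one_le_mul_of_one_le_of_one_le ?_ ?_)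
        · exact Mu_le (by omega) (sub_mem ((cd0 z hz).1 h) ((cd0 y hy).1 h))
        · have n0 : (W.erase o).Nonempty := card_pos.1 (by omega)
          have n1 : s ∉ W.erase o := fun e => hs' (mem_of_mem_erase e)
          have h1 := (cd0 z hz).2 n0 s hs n1
          have h2 := (cd0 y hy).2 n0 s hs n1
          rw [update_of_ne (ne_of_mem_of_not_mem ho hs').symm] at h1 h2
          exact Mu_le (by omega) (sub_mem h1 h2)
        · exact le_trans ((Set.ncard_pos (Set.toFinite _)).2 ⟨v, (R.mono _ _ Φ μ t P J i i i1 ax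
            (cb.lb t ht) ok (by omega) le_rfl iJ).2.2 i2 ⟨_, (hx t ht).1, (hx t ht).2.1⟩⟩)
            (hx t ht).2.2
        · exact Nat.one_le_two_pow
      have F : ∀ z ∈ A, Fc Φ μ P i i1 D W a b X v ψ Γ (update x0 o z) (update x1 o z') :=
        fun z hz => ⟨C, ax, cb, gm, sub, vx_of (hA z hz).1 g', hv,
          fun x h => ⟨(hx x h).1, (hx x h).2.1⟩, hi, fun W' h1 h2 => by
            by_cases e : o ∈ W'
            · exact (hA z hz).2 W' h1 h2 e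
            · have := subset_erase.2 ⟨h1, e⟩
              exact cd_loc (fun l hl => (upd_loc z' l (this hl)).symm) ((hA z hz).1 _ this).2⟩
      have ex : ∀ z ∈ A, ∀ h, ∃ r, 2 ^ (W.erase o).card • r =
          cW W (update x0 o z) (update x1 o z') fun x => ψ x h - Γ x h := fun z hz h => by
        rw [cW_split ho]
        exact Mu_le (by omega) (sub_mem ((cd0 z hz).1 h) ((g' _ Subset.rfl).2.1 h))
      choose! ρ hρ using ex
      have cc : ∀ z ∈ A, CC Φ μ t P 1 (ρ z) := fun z hz => C.hlf _ _ _ _ _ (W.erase o).card _ _ _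
        ok.adm.tf (by simpa only [hc, et, ← hρ z hz] using (F z hz).coh)
      have J1 : 1 ≤ J := by omega
      refine le_trans ?_ ((Nat.mul_le_mul_right (2 ^ (ℓ * D.card)) ((R.ub _ _ Φ μ t P J i1
        (insert b D) ax (cb.lb t ht) ok).trans (Nat.mul_le_mul_right _ (hx t ht).2.2))).trans ?_)
      swap
      · rw [card_insert_of_notMem cb.bd, mul_assoc, ← pow_add]
        exact le_of_eq (by ring)
      have cu : (Set.univ : Set (D → Vb ℓ)).ncard = 2 ^ (ℓ * D.card) := by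
        simp [Set.ncard_univ, pow_mul]
      rw [← cu, ← Set.ncard_prod, ← Set.ncard_coe_finset]
      refine Set.ncard_le_ncard_of_injOn (fun z => (red Φ t (ρ z), fun s k =>
        ((cW (W.erase o) (update x0 o z) x1 (ψ · (Φ.sg (x0 s))) k / 2 ^ W.card : ℤ) : F2)))
        (fun z hz => ⟨⟨⟨_, cc z hz, rfl⟩, fun w hw h0 => ?_⟩, trivial⟩) fun z hz y hy e => ?_
      · refine (R.val _ _ Φ μ t P J 1 i1 w _ ax (cb.lb t ht) ok le_rfl J1 hw (cc z hz)).2 ?_
        have := (F z hz).pair R ok iJ (et z ▸ (R.one _ _ Φ μ t P i1 w ax (cb.lb t ht)).1.1 hw) h0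
        rw [et, ← funext (hρ z hz), show (fun h => 2 ^ (W.erase o).card • ρ z h)
          = 2 ^ (W.erase o).card • ρ z from rfl, Pw_smul, ← hc, add_assoc, pow_add] at this
        exact (mul_dvd_mul_iff_left (by positivity)).1 this
      obtain ⟨e1, e2⟩ := Prod.ext_iff.1 e
      obtain ⟨r, -, hr⟩ := R.det _ _ Φ μ t P J 1 i1 _ _ ax (cb.lb t ht) ok le_rfl J1 (cc z hz)
        (cc y hy) e1
      have h1 : ∀ h, cW (W.erase o) (update x0 o z) x1 (fun x => ψ x h - Γ x h) -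
          cW (W.erase o) (update x0 o y) x1 (fun x => ψ x h - Γ x h) ∈ Mu _ W.card := fun h => by
        have a1 := hρ z hz h
        have a2 := hρ y hy h
        rw [cW_split ho] at a1 a2
        rw [← sub_sub_sub_cancel_right _ _ (cW (W.erase o) (update x0 o z') x1 _), ← a1, ← a2,
          ← smul_sub, hr, smul_smul, ← pow_succ, hc]
        exact ⟨_, rfl⟩
      refine not_not.1 fun n => ne z hz y hy n
        ⟨fun h => Mu_le (min_le_left _ _) (h1 h), fun s hs hs' => Mu_le (min_le_left _ _) ?_⟩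
      have vx := vx_of (hA z hz).1 (hA y hy).1
      have h2 := gam_mem gm vx sub (h := Φ.sg (x0 s)) fun ha => by
        simpa only [update_of_ne fun e : s = o => hs' (e ▸ ho)] using
          qs_lab (Φ := Φ) cb vx ha fun e : s = a => hs' (e ▸ ha)
      have h3 := add_mem (h1 (Φ.sg (x0 s))) h2
      rw [cW_split ho, cW_sub, cW_sub, sub_sub_sub_comm, sub_add_cancel, mem_Mu_pi] at h3
      exact mem_Mu_pi.2 fun k => dig (h3 k) (congrFun (congrFun e2 ⟨s, hs⟩) k) }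

end Pool.Agent.MP_1246c0_nt.H25
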