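import Pool.Agent.MP_1246c0_nt.H25.SpecU
import Pool.Agent.MP_db5b97_nt.H72.Z

/-! The symbols of the unit are rarely divisible. -/

namespace Pool.Agent.MP_1246c0_nt.H25

open NumberField Finset Pool.Agent.MP_db5b97_nt.H85
open Pool.Agent.MP_1246c0_nt.H12

namespace UNT

theorem pow_val {G : Type} [Monoid G] {N : ℕ} [NeZero N] {g : G} (h : g ^ N = 1) (a b : ZMod N) :
    g ^ (a + b).val = g ^ a.val * g ^ b.val := by
  rw [ZMod.val_add, ← pow_eq_pow_mod _ h, pow_add]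

theorem norm_ker {F : Type} [Field F] [NumberField F] {p : ℕ} (ψ : 𝓞 F →+* ZMod p) :
    Ideal.absNorm (RingHom.ker ψ) = p :=
  (Nat.card_congr (RingHom.quotientKerEquivOfSurjective
    (ZMod.ringHom_surjective ψ)).toEquiv).trans (Nat.card_zmod p)

theorem gd (E : SDEC) {n k q : ℕ} (hk : n + 2 ≤ k) (hq : q.Prime) (h : q % 2 ^ k = 1) : Gd n q := by
  have key : ∀ a, 1 ≤ a → a ≤ k → q % 2 ^ a = 1 := fun a h1 h2 => by
    rw [← Nat.mod_mod_of_dvd q (pow_dvd_pow 2 h2), h, Nat.mod_eq_of_lt (Nat.one_lt_two_pow (by omega))]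
  have h2 : q % 2 = 1 := key 1 le_rfl (by omega)
  exact ⟨hq, by omega, (((E.cls q h2 hq.one_lt).2.2 n).1.2 (key _ (by omega) hk)).1⟩

theorem primes (C : SCY) (E : SDEC) {n q : ℕ} (D : Dat n) (hq : Gd n q) :
    ∃ v : ZMod (2 ^ n) → Sp D.F, v.Injective ∧ ∀ i, ∃ ψ : 𝓞 D.F →+* ZMod q,
      (v i).asIdeal = RingHom.ker ψ ∧ ∀ t, qr (ψ (D.γ⁻¹ ^ t.val • D.η)) = D.cc q (t + i) := by
  obtain ⟨ψ, h1, -⟩ := D.hom q hq
  have := Fact.mk hq.1
  have ho : D.γ ^ 2 ^ n = 1 := by rw [← (C.gal _ n _ _ D.cy).2.2.1, pow_orderOf_eq_one]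
  obtain ⟨w, hw⟩ : ∃ w : Sp D.F, w.asIdeal = RingHom.ker ψ := ⟨⟨_, RingHom.ker_isPrime ψ, fun e =>
    hq.1.ne_zero (by rw [← norm_ker ψ, e, Ideal.absNorm_bot])⟩, rfl⟩
  refine ⟨fun i => D.γ ^ i.val • w, fun i i' e => ?_, fun i =>
    ⟨ψ.comp (MulSemiringAction.toRingHom _ _ (D.γ⁻¹ ^ i.val)), ?_, fun t => ?_⟩⟩
  · have h2 := ((E.dec _ n _ _ D.cy q w ⟨hq.1, hq.2.1, Nat.zero_le _⟩ (by simp [hw])).1
      (i - i').val).1 (MulAction.injective (D.γ ^ i'.val) (by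
        simpa only [smul_smul, ← pow_val ho, add_sub_cancel] using e))
    rw [min_eq_right hq.2.2] at h2
    exact sub_eq_zero.1 ((ZMod.val_eq_zero _).1 (Nat.eq_zero_of_dvd_of_lt h2 (ZMod.val_lt _)))
  · ext x
    rw [mem_smul_iff, hw, ← inv_pow]
    rfl
  · rw [Dat.cc, Dat.sy, h1, add_comm, pow_val (by rw [inv_pow, ho, inv_one]), mul_smul]
    rfl

end UNT

open UNT in
theorem rowUNT : OfUNT := by
  intro C E J H L n j D ε hj hε
  obtain ⟨W, hW, ann⟩ := J.ann n j hj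
  obtain ⟨A, hA⟩ := L n D
  obtain ⟨k0, h0⟩ := H D.F A ε hε
  refine ⟨max k0 (n + 2), fun k hk σ s0 s1 => ?_⟩
  obtain ⟨k1, k2⟩ := max_le_iff.1 hk
  obtain ⟨Γ, _, ω, ker, Tv, cf, c1, c2, hker⟩ := hA k W (by omega)
  have h1 := h0 k k1 Γ ω ker Tv σ cf s0 s1
  have nn : ∀ v : Sp D.F, 0 ≤ ind (ker v.asIdeal) * nz v.asIdeal (1 + σ) := fun v =>
    mul_nonneg (by unfold ind; split_ifs <;> simp) (MP_db5b97_nt.H72.nz_nonneg _ _)
  have sm : Summable fun v : Sp D.F => ind (ker v.asIdeal) * nz v.asIdeal (1 + σ) :=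
    .of_nonneg_of_le nn (fun v => mul_le_of_le_one_left (MP_db5b97_nt.H72.nz_nonneg _ _)
      (by unfold ind; split_ifs <;> simp)) ((MP_db5b97_nt.H72.zeta_sum (by linarith)).1.comp_injective
        fun _ _ => IsDedekindDomain.HeightOneSpectrum.ext)
  have h2 : SP' (fun q => q % 2 ^ k = 1 ∧ Dj j (D.cc q)) (pw σ) ≤
      (∑' v : Sp D.F, ind (ker v.asIdeal) * nz v.asIdeal (1 + σ)) / 2 ^ n := by
    classical
    choose v inj ψ e1 e2 using fun q : {q : ℕ | q.Prime ∧ q % 2 ^ k = 1 ∧ Dj j (D.cc q)} =>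
      primes C E D (gd E k2 q.2.1 q.2.2.1)
    have nm : ∀ q i, Ideal.absNorm (v q i).asIdeal = q := fun q i => by rw [e1, norm_ker]
    have : SP' (fun q => q % 2 ^ k = 1 ∧ Dj j (D.cc q)) (pw σ) =
        ∑' q : {q : ℕ | q.Prime ∧ q % 2 ^ k = 1 ∧ Dj j (D.cc q)}, pw σ q := by
      rw [_root_.tsum_subtype, SP']
      exact tsum_congr fun q => by simp [Set.indicator_apply]
    rw [this]
    refine Real.tsum_le_of_sum_le (fun q => Real.rpow_nonneg (Nat.cast_nonneg _) _) fun u => ?_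
    rw [le_div_iff₀ (by positivity)]
    refine le_trans (le_of_eq ?_) (sm.sum_le_tsum ((u ×ˢ univ).image fun x => v x.1 x.2)
      fun v _ => nn v)
    rw [sum_image, sum_product, sum_mul]
    · refine sum_congr rfl fun q _ => ?_
      rw [sum_congr rfl fun i _ => show _ = pw σ q from ?_]
      · simp [mul_comm]
      · rw [nz, nm, ind, if_pos, one_mul, pw, neg_add']
        rw [e1]
        exact hker q _ q.2.1 q.2.2.1 fun μ hμ => by simpa only [e2] using ann _ q.2.2.2 μ hμ i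
    · rintro ⟨q, i⟩ - ⟨q', i'⟩ - e
      obtain rfl : q = q' := Subtype.ext (by rw [← nm q i, ← nm q' i']; exact congrArg _ (congrArg _ e))
      exact Prod.ext rfl (inj q e)
  refine h2.trans ?_
  generalize ∑' v : Sp D.F, ind (ker v.asIdeal) * nz v.asIdeal (1 + σ) = S at h1
  have l0 : 0 ≤ Real.log (1 / σ) := Real.log_nonneg (one_le_one_div s0 (s1.trans (by
    rw [div_le_one (by have : 0 < k := by omega
                       positivity)]
    exact_mod_cast Nat.one_le_pow _ _ (by omega))))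
  obtain ⟨m, rfl⟩ : ∃ m, k = m + 1 := ⟨k - 1, by omega⟩
  have c3 : (2 : ℝ) ^ (m + j) ≤ Fintype.card Γ := by
    rw [c1, pow_add]
    exact_mod_cast Nat.mul_le_mul_left _ hW
  have c0 : (0 : ℝ) < Fintype.card Γ := lt_of_lt_of_le (by positivity) c3
  have c4 : (Tv.card : ℝ) ≤ 2 ^ (n + 2) := by exact_mod_cast c2
  have h3 : S ≤ 2 ^ (n + 2) * Real.log (1 / σ) / 2 ^ (m + j) + ε := by
    refine le_of_mul_le_mul_left (h1.trans ?_) c0
    rw [mul_add, mul_comm ε, ← mul_div_assoc, mul_div_right_comm]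
    have := mul_le_mul_of_nonneg_right ((one_le_div (by positivity)).2 c3)
      (show 0 ≤ 2 ^ (n + 2) * Real.log (1 / σ) by positivity)
    linarith [mul_le_mul_of_nonneg_right c4 l0]
  refine (div_le_div_of_nonneg_right h3 (by positivity)).trans ?_
  rw [add_div]
  refine add_le_add (le_of_eq ?_) (div_le_self hε.le (one_le_pow₀ one_le_two))
  field_simp
  ring

end Pool.Agent.MP_1246c0_nt.H25
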