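import Pool.Agent.MP_1246c0_nt.H25.SpecA
import Pool.Agent.MP_1246c0_nt.H22.TW

/-! The layers of the tower over a real quadratic field of odd radicand. -/

namespace Pool.Agent.MP_1246c0_nt.H25

open NumberField IntermediateField Pool.Agent.MP_db5b97_nt.H85
open Pool.Agent.MP_1246c0_nt.H12
open Pool.Agent.MP_1246c0_nt.H12.TW (map_tw tw_cube Qd aut restr hom_ext pow_comm' pow_fix Bs)

namespace TQ

section Base

variable {L : Type} [Field L] [NumberField L] {d M : ℕ} {s θ : L} {σ γ : L ≃ₐ[ℚ] L}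

theorem s_ne (h : Tq L d M s θ σ γ) : s ≠ 0 := by
  intro e
  have h1 := h.sq
  rw [e, zero_pow two_ne_zero, eq_comm, Nat.cast_eq_zero] at h1
  have := h.big
  omega

theorem neg_ne (h : Tq L d M s θ σ γ) : -s ≠ s := fun e =>
  s_ne h (by linear_combination (-1 / 2 : L) * e)

theorem base' (h : Tq L d M s θ σ γ) {F : Type} [Field F] [NumberField F] (j : F →+* L)
    (hj : ∀ y, y ∈ j.range ↔ y ∈ adjoin ℚ {θ}) :
    ∃ (θ₀ : F) (γ₀ : F ≃ₐ[ℚ] F), Bs d M s θ σ γ θ₀ γ₀ j := by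
  have hθ : θ ∈ adjoin ℚ {θ} := mem_adjoin_simple_self ℚ θ
  obtain ⟨θ₀, h₀⟩ := (hj θ).2 hθ
  have gen : adjoin ℚ {θ₀} = ⊤ := by
    refine eq_top_iff.2 fun a _ => ?_
    have ha : j a ∈ (adjoin ℚ {θ₀}).map j.toRatAlgHom := by
      rw [adjoin_map, Set.image_singleton]
      exact h₀ ▸ (hj _).1 ⟨a, rfl⟩
    obtain ⟨a', h1, h2⟩ := ha
    rwa [← j.injective h2]
  have hγ : ∀ a, (γ.toAlgHom.toRingHom.comp j) a ∈ j.range := by
    intro a
    have h1 : adjoin ℚ {θ} ≤ (adjoin ℚ {θ}).comap γ.toAlgHom := by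
      rw [adjoin_simple_le_iff]
      change γ θ ∈ adjoin ℚ {θ}
      rw [h.gt]
      exact sub_mem (pow_mem hθ 3) (mul_mem (ofNat_mem _ 3) hθ)
    exact (hj _).2 (h1 ((hj _).1 ⟨a, rfl⟩))
  obtain ⟨g, hg⟩ := restr _ j hγ
  obtain ⟨γ₀, hγ₀⟩ := aut g
  have gj : ∀ a, γ (j a) = j (γ₀ a) := fun a => by rw [hγ₀, hg]; rfl
  have sj : ∀ a, σ (j a) = j a :=
    hom_ext gen (σ.toAlgHom.toRingHom.comp j) j (by
      change σ (j θ₀) = j θ₀
      rw [h₀, h.st])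
  have qd : Qd j s d := by
    refine ⟨h.sq, fun y => ?_, fun a b e => ?_⟩
    · have hy : y ∈ Algebra.adjoin ℚ {s, θ} := by
        rw [← adjoin_toSubalgebra_of_isAlgebraic fun x _ => Algebra.IsAlgebraic.isAlgebraic x,
          h.gen]
        trivial
      induction hy using Algebra.adjoin_induction with
      | mem x hx =>
        rcases hx with rfl | rfl
        · exact ⟨0, 1, by simp⟩
        · exact ⟨θ₀, 0, by simp [h₀]⟩
      | algebraMap r => exact ⟨r, 0, by simp⟩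
      | add x y _ _ h1 h2 =>
        obtain ⟨a, b, rfl⟩ := h1
        obtain ⟨a', b', rfl⟩ := h2
        exact ⟨a + a', b + b', by simp only [map_add]; ring⟩
      | mul x y _ _ h1 h2 =>
        obtain ⟨a, b, rfl⟩ := h1
        obtain ⟨a', b', rfl⟩ := h2
        refine ⟨a * a' + b * b' * d, a * b' + b * a', ?_⟩
        simp only [map_add, map_mul, map_natCast]
        rw [← h.sq]
        ring
    · have e' := congrArg σ e
      rw [map_add, map_mul, sj, sj, h.ss, map_zero] at e'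
      have h1 : j b * s = 0 := by linear_combination (1 / 2 : L) * e - (1 / 2 : L) * e'
      exact (map_eq_zero j).1 ((mul_eq_zero.1 h1).resolve_right (s_ne h))
  refine ⟨θ₀, γ₀, ⟨?_, gen, ?_, ?_⟩, qd, h₀, sj, gj⟩
  · have h1 := qd.rank
    rw [h.rk, pow_succ] at h1
    omega
  · exact j.injective (by rw [map_tw, h₀, h.root, map_zero])
  · refine j.injective ?_
    rw [← gj, h₀, h.gt, map_sub, map_mul, map_pow, map_ofNat, h₀]

theorem base (h : Tq L d M s θ σ γ) : ∃ (F : Type) (_ : Field F) (_ : NumberField F) (θ₀ : F)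
    (γ₀ : F ≃ₐ[ℚ] F) (j : F →+* L), Bs d M s θ σ γ θ₀ γ₀ j := by
  obtain ⟨θ₀, γ₀, hb⟩ := base' h (F := adjoin ℚ {θ}) (algebraMap _ L) fun y =>
    ⟨fun ⟨a, e⟩ => e ▸ a.2, fun hy => ⟨⟨y, hy⟩, rfl⟩⟩
  exact ⟨_, _, _, θ₀, γ₀, _, hb⟩

variable {F : Type} [Field F] [NumberField F] {θ₀ : F} {γ₀ : F ≃ₐ[ℚ] F} {j : F →+* L}

theorem fixs (b : Bs d M s θ σ γ θ₀ γ₀ j) (h : Tq L d M s θ σ γ) (y : L) (hy : σ y = y) :
    y ∈ j.range := by
  obtain ⟨x, z, rfl⟩ := b.qd.span y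
  rw [map_add, map_mul, b.sj, b.sj, h.ss] at hy
  have h1 : j z * s = 0 := by linear_combination (-1 / 2 : L) * hy
  exact ⟨x, by rw [h1, add_zero]⟩

theorem gal (C : SCY) (h : Tq L d M s θ σ γ) : IsGalois ℚ L ∧
    (∀ g : L ≃ₐ[ℚ] L, ∃ k : ℕ, g = γ ^ k ∨ g = σ * γ ^ k) ∧ σ * σ = 1 ∧ σ * γ = γ * σ ∧
    orderOf γ = 2 ^ M ∧ (∀ k : ℕ, σ ≠ γ ^ k) ∧ IsTotallyReal L := by
  obtain ⟨F, _, _, θ₀, γ₀, j, b⟩ := base h
  obtain ⟨hG, hcyc, hord, -⟩ := C.gal F M θ₀ γ₀ b.cy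
  have hp := pow_comm' j γ₀ γ b.gj
  have hs := pow_fix γ s h.gs
  refine ⟨?_, fun g => ?_, ?_, ?_, ?_, fun k e => ?_, ⟨fun w => ?_⟩⟩
  · refine IsGalois.of_fixedField_eq_bot ℚ L (eq_bot_iff.2 fun y hy => ?_)
    rw [mem_fixedField_iff] at hy
    obtain ⟨a, rfl⟩ := fixs b h y (hy σ trivial)
    obtain ⟨r, rfl⟩ := (IsGalois.mem_range_algebraMap_iff_fixed (F := ℚ) a).2 fun f => by
      obtain ⟨k, rfl⟩ := hcyc f
      exact j.injective (by rw [← hp, hy _ trivial])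
    exact ⟨r, by simp⟩
  · let := j.toAlgebra
    have : IsScalarTower ℚ F L := IsScalarTower.of_algebraMap_eq' (Subsingleton.elim _ _)
    obtain ⟨k, hk⟩ := hcyc (g.restrictNormal F)
    have hg : ∀ a, g (j a) = (γ ^ k) (j a) := fun a => by
      rw [hp, ← hk]
      exact (g.restrictNormal_commutes F a).symm
    have h2 : g s ^ 2 = s ^ 2 := by rw [← map_pow, h.sq, map_natCast]
    rcases sq_eq_sq_iff_eq_or_eq_neg.1 h2 with e | e
    · exact ⟨k, Or.inl (b.aext _ _ hg (by rw [e, hs]))⟩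
    · refine ⟨k, Or.inr (b.aext _ _ (fun a => ?_) ?_)⟩
      · rw [hg, AlgEquiv.mul_apply, hp, b.sj]
      · rw [e, AlgEquiv.mul_apply, hs, h.ss]
  · refine b.aext _ _ (fun a => ?_) ?_
    · rw [AlgEquiv.mul_apply, b.sj, b.sj, AlgEquiv.one_apply]
    · rw [AlgEquiv.mul_apply, h.ss, map_neg, h.ss, neg_neg, AlgEquiv.one_apply]
  · refine b.aext _ _ (fun a => ?_) ?_
    · rw [AlgEquiv.mul_apply, AlgEquiv.mul_apply, b.gj, b.sj, b.sj, b.gj]
    · rw [AlgEquiv.mul_apply, AlgEquiv.mul_apply, h.gs, h.ss, map_neg, h.gs]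
  · rw [← hord, orderOf_eq_orderOf_iff]
    refine fun k => ⟨fun e => AlgEquiv.ext fun a => j.injective ?_, fun e => b.aext _ _ ?_ (hs k)⟩
    · rw [← hp, e, AlgEquiv.one_apply, AlgEquiv.one_apply]
    · intro a
      rw [hp, e, AlgEquiv.one_apply, AlgEquiv.one_apply]
  · exact neg_ne h (by rw [← h.ss, e, hs])
  · have := (C.real F M θ₀ γ₀ b.cy).1
    rw [InfinitePlace.isReal_iff, ComplexEmbedding.isReal_iff]
    refine RingHom.ext (b.ext _ _ (fun a => ?_) ?_)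
    · exact RingHom.congr_fun (ComplexEmbedding.isReal_iff.1
        (IsTotallyReal.complexEmbedding_isReal (w.embedding.comp j))) a
    · have h1 : w.embedding s ^ 2 = ((√d : ℝ) : ℂ) ^ 2 := by
        rw [← map_pow, h.sq, map_natCast, ← Complex.ofReal_pow, Real.sq_sqrt d.cast_nonneg,
          Complex.ofReal_natCast]
      rw [ComplexEmbedding.conjugate_coe_eq]
      rcases sq_eq_sq_iff_eq_or_eq_neg.1 h1 with e | e <;> rw [e] <;> simp

theorem emb (C : SCY) (h : Tq L d M s θ σ γ) {m : ℕ} {θ' : F} {γ' : F ≃ₐ[ℚ] F}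
    (h' : Cy F m θ' γ') (hm : m ≤ M) : ∃ j : F →+* L, j θ' = tw^[M - m] θ ∧
      (∀ x, j (γ' x) = γ (j x)) ∧ ∀ y, y ∈ j.range ↔ σ y = y ∧ (γ ^ 2 ^ m) y = y := by
  obtain ⟨K, _, _, θ₀, γ₀, j, b⟩ := base h
  obtain ⟨i, h1, h2, h3⟩ := C.emb F K m M θ' γ' θ₀ γ₀ h' b.cy hm
  have hp := pow_comm' j γ₀ γ b.gj
  refine ⟨j.comp i, ?_, fun x => ?_, fun y => ⟨?_, fun ⟨e1, e2⟩ => ?_⟩⟩
  · rw [RingHom.comp_apply, h1, map_tw, b.jt]
  · rw [RingHom.comp_apply, RingHom.comp_apply, h2, b.gj]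
  · rintro ⟨a, rfl⟩
    exact ⟨b.sj _, by rw [RingHom.comp_apply, hp, (h3 _).1 ⟨a, rfl⟩]⟩
  · obtain ⟨a, rfl⟩ := fixs b h y e1
    obtain ⟨c, rfl⟩ := (h3 a).2 (j.injective (by rw [← hp, e2]))
    exact ⟨c, rfl⟩

theorem sub (C : SCY) (h : Tq L d M s θ σ γ) {L' : Type} [Field L'] [NumberField L'] {m : ℕ}
    {s' θ' : L'} {σ' γ' : L' ≃ₐ[ℚ] L'} (h' : Tq L' d m s' θ' σ' γ') (hm : m ≤ M) :
    ∃ j : L' →+* L, j s' = s ∧ j θ' = tw^[M - m] θ ∧ (∀ x, j (σ' x) = σ (j x)) ∧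
      (∀ x, j (γ' x) = γ (j x)) ∧ ∀ y, y ∈ j.range ↔ (γ ^ 2 ^ m) y = y := by
  obtain ⟨K, _, _, θ₀, γ₀, j, b⟩ := base h
  obtain ⟨K', _, _, θ₁, γ₁, j', b'⟩ := base h'
  obtain ⟨i, h1, h2, h3⟩ := C.emb K' K m M θ₁ γ₁ θ₀ γ₀ b'.cy b.cy hm
  obtain ⟨f, f1, f2⟩ := b'.qd.lift (j.comp i) s h.sq
  have hp := pow_comm' j γ₀ γ b.gj (2 ^ m)
  have hs := pow_fix γ s h.gs (2 ^ m)
  simp only [RingHom.comp_apply] at f1
  refine ⟨f, f2, ?_, fun x => ?_, fun x => ?_, fun y => ⟨?_, fun e => ?_⟩⟩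
  · rw [← b'.jt, f1, h1, map_tw, b.jt]
  · obtain ⟨a, c, rfl⟩ := b'.qd.span x
    simp only [map_add, map_mul, map_neg, b'.sj, h'.ss, f1, f2, b.sj, h.ss]
  · obtain ⟨a, c, rfl⟩ := b'.qd.span x
    simp only [map_add, map_mul, b'.gj, h'.gs, f1, f2, b.gj, h.gs, h2]
  · rintro ⟨x, rfl⟩
    obtain ⟨a, c, rfl⟩ := b'.qd.span x
    simp only [map_add, map_mul, f1, f2, hp, hs, (h3 _).1 ⟨a, rfl⟩, (h3 _).1 ⟨c, rfl⟩]
  · obtain ⟨a, c, rfl⟩ := b.qd.span y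
    rw [map_add, map_mul, hp, hp, hs] at e
    obtain ⟨e1, e2⟩ := b.qd.inj e
    obtain ⟨a', rfl⟩ := (h3 a).2 e1
    obtain ⟨c', rfl⟩ := (h3 c).2 e2
    exact ⟨j' a' + j' c' * s', by rw [map_add, map_mul, f1, f1, f2]⟩

theorem nsq (C : SCY) {n : ℕ} (h : Cy F n θ₀ γ₀) (hd : Squarefree d) (ho : Odd d) (hb : 1 < d)
    (r : F) : r ^ 2 ≠ d := by
  intro e
  obtain ⟨hG, hcyc, hord, -⟩ := C.gal F n θ₀ γ₀ h
  have key : ∀ (x : F) (c : ℕ), γ₀ x = x → x ^ 2 = c → ∃ m : ℕ, c = m * m := by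
    intro x c h1 h2
    obtain ⟨q, rfl⟩ := (IsGalois.mem_range_algebraMap_iff_fixed (F := ℚ) x).2 fun f => by
      obtain ⟨k, rfl⟩ := hcyc f
      exact pow_fix γ₀ x h1 k
    refine Rat.isSquare_natCast_iff.1 ⟨q, (algebraMap ℚ F).injective ?_⟩
    rw [map_natCast, ← h2, map_mul, sq]
  have sq16 : ∀ m : ℕ, m * m % 16 = 0 ∨ m * m % 16 = 1 ∨ m * m % 16 = 4 ∨ m * m % 16 = 9 := by
    intro m
    rw [Nat.mul_mod]
    have : m % 16 < 16 := Nat.mod_lt _ (by norm_num)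
    generalize m % 16 = k at *
    interval_cases k <;> simp
  have h2 : γ₀ r ^ 2 = r ^ 2 := by rw [← map_pow, e, map_natCast]
  have h0 : γ₀ r ≠ r := fun e1 => by
    obtain ⟨m, hm⟩ := key r d e1 e
    have h1 : m = 1 := Nat.isUnit_iff.1 (hd m ⟨1, by rw [hm, mul_one]⟩)
    subst h1
    omega
  have e1 := (sq_eq_sq_iff_eq_or_eq_neg.1 h2).resolve_left h0
  cases n with
  | zero =>
    rw [pow_zero, orderOf_eq_one_iff] at hord
    exact h0 (by rw [hord, AlgEquiv.one_apply])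
  | succ n =>
    have ht : (tw^[n] θ₀) ^ 2 = 2 := by
      have := h.root
      rw [Function.iterate_succ_apply'] at this
      exact sub_eq_zero.1 this
    have hg : γ₀ (tw^[n] θ₀) = -tw^[n] θ₀ := by
      have := map_tw γ₀.toAlgHom.toRingHom n θ₀
      change γ₀ _ = tw^[n] (γ₀ θ₀) at this
      rw [this, h.act, tw_cube]
      linear_combination (tw^[n] θ₀) * ht
    obtain ⟨m, hm⟩ := key (r * tw^[n] θ₀) (2 * d) (by rw [map_mul, e1, hg, neg_mul_neg])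
      (by rw [mul_pow, e, ht, Nat.cast_mul, Nat.cast_ofNat, mul_comm])
    have := sq16 m
    obtain ⟨c, hc⟩ := ho
    omega

theorem mk (h : Cy F M θ₀ γ₀) (hd : Squarefree d) (ho : Odd d) (hb : 1 < d)
    (q : Qd j s d) :
    ∃ σ γ : L ≃ₐ[ℚ] L, Tq L d M s (j θ₀) σ γ := by
  obtain ⟨f, f1, f2⟩ := q.lift j (-s) (by rw [neg_sq, q.sq])
  obtain ⟨g, g1, g2⟩ := q.lift (j.comp γ₀.toAlgHom.toRingHom) s q.sq
  obtain ⟨σ, hσ⟩ := aut f
  obtain ⟨γ, hγ⟩ := aut g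
  refine ⟨σ, γ, hd, ho, hb, q.sq, ?_, ?_, ?_, ?_, ?_, ?_, ?_⟩
  · rw [q.rank, h.rk, pow_succ, mul_comm]
  · have h1 : (⊤ : IntermediateField ℚ F) ≤ (adjoin ℚ {s, j θ₀}).comap j.toRatAlgHom := by
      rw [← h.gen, adjoin_simple_le_iff]
      exact subset_adjoin ℚ {s, j θ₀} (Or.inr rfl)
    refine eq_top_iff.2 fun y _ => ?_
    obtain ⟨a, c, rfl⟩ := q.span y
    exact add_mem (h1 mem_top) (mul_mem (h1 mem_top) (subset_adjoin ℚ {s, j θ₀} (Or.inl rfl)))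
  · rw [← map_tw, h.root, map_zero]
  · rw [hσ, f2]
  · rw [hσ, f1]
  · rw [hγ, g2]
  · rw [hγ, g1]
    change j (γ₀ θ₀) = _
    rw [h.act, map_sub, map_mul, map_pow, map_ofNat]

theorem rcp (D : SRD) (G : SRDG) (C : SCY) (h : Tq L d M s θ σ γ) : Rec L := by
  obtain ⟨F, _, _, θ₀, γ₀, j, b⟩ := base h
  let := j.toAlgebra
  have : IsScalarTower ℚ F L := IsScalarTower.of_algebraMap_eq' (Subsingleton.elim _ _)
  have h1 := Module.finrank_mul_finrank ℚ F L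
  rw [b.cy.rk, h.rk, pow_succ] at h1
  exact G F L (Nat.eq_of_mul_eq_mul_left (by positivity) h1) (gal C h).2.2.2.2.2.2
    ⟨_, D M F θ₀ γ₀ b.cy⟩

end Base

theorem qd {F L Ω : Type} [Field F] [Field L] [Field Ω] [Algebra ℚ Ω] [Algebra.IsAlgebraic ℚ Ω]
    (j : F →+* L) (i : L →+* Ω) (s : L) (θ : F) (d : ℕ) (hs : s ^ 2 = d)
    (hy : ∀ y, i y ∈ adjoin ℚ {i s, i (j θ)}) (hn : ∀ r : F, r ^ 2 ≠ d) : Qd j s d := by
  have : CharZero Ω := algebraRat.charZero Ω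
  have : CharZero L := i.charZero
  have : CharZero F := j.charZero
  refine ⟨hs, fun y => ?_, fun a b e => ?_⟩
  · have hy : i y ∈ Algebra.adjoin ℚ {i s, i (j θ)} := by
      rw [← adjoin_toSubalgebra_of_isAlgebraic fun x _ => Algebra.IsAlgebraic.isAlgebraic x]
      exact hy y
    suffices H : ∃ a b : F, i y = i (j a + j b * s) by
      obtain ⟨a, b, e⟩ := H
      exact ⟨a, b, i.injective e⟩
    generalize i y = z at hy
    induction hy using Algebra.adjoin_induction with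
    | mem x hx =>
      rcases hx with rfl | rfl
      · exact ⟨0, 1, by simp⟩
      · exact ⟨θ, 0, by simp⟩
    | algebraMap r => exact ⟨r, 0, by simp⟩
    | add x y _ _ h1 h2 =>
      obtain ⟨a, b, rfl⟩ := h1
      obtain ⟨a', b', rfl⟩ := h2
      refine ⟨a + a', b + b', ?_⟩
      rw [← map_add]
      congr 1
      simp only [map_add]
      ring
    | mul x y _ _ h1 h2 =>
      obtain ⟨a, b, rfl⟩ := h1
      obtain ⟨a', b', rfl⟩ := h2
      refine ⟨a * a' + b * b' * d, a * b' + b * a', ?_⟩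
      rw [← map_mul]
      congr 1
      simp only [map_add, map_mul, map_natCast]
      rw [← hs]
      ring
  · by_contra hb0
    have hjb : j b ≠ 0 := (map_ne_zero j).2 hb0
    refine hn (a / b) (j.injective ?_)
    rw [map_pow, map_div₀, map_natCast, ← hs, div_pow, div_eq_iff (pow_ne_zero 2 hjb)]
    linear_combination (j a - j b * s) * e

theorem incl {K Ω : Type} [Field K] [Field Ω] [Algebra K Ω] {E E' : IntermediateField K Ω}
    (h : E ≤ E') : ∃ j : E →+* E', ∀ a, (j a : Ω) = a :=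
  ⟨(inclusion h).toRingHom, fun _ => rfl⟩

theorem ex (C : SCY) (K : SKQ) (d M : ℕ) (hd : Squarefree d) (ho : Odd d) (hb : 1 < d) :
    ∃ (s θ : kM d M) (σ γ : kM d M ≃ₐ[ℚ] kM d M),
      (s : Om) = sqr d ∧ (θ : Om) = th M ∧ Tq (kM d M) d M s θ σ γ := by
  obtain ⟨θ₀, γ₀, h0, h, -⟩ := K.cy M
  have hle : kQ M ≤ kM d M := adjoin.mono ℚ _ _ (Set.subset_insert _ _)
  obtain ⟨j, hj⟩ := incl hle
  obtain ⟨s, es⟩ : ∃ s : kM d M, (s : Om) = sqr d := ⟨⟨_, subset_adjoin ℚ _ (Or.inl rfl)⟩, rfl⟩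
  obtain ⟨i, hi⟩ : ∃ i : kM d M →+* Om, ∀ a, i a = a := ⟨algebraMap _ _, fun _ => rfl⟩
  have hs : s ^ 2 = d := i.injective (by rw [map_pow, map_natCast, hi, es, sq, sqr_mul])
  have q : Qd j s d := qd j i s θ₀ d hs (fun y => by
    rw [hi, hi, hi, es, hj, h0]
    exact y.2) (nsq C h hd ho hb)
  obtain ⟨σ, γ, H⟩ := mk h hd ho hb q
  exact ⟨s, j θ₀, σ, γ, es, (hj _).trans h0, H⟩

theorem mem (K : SKQ) (d M : ℕ) (h : Ga) :
    h ∈ (kM d M).fixingSubgroup ↔ chi d h = 0 ∧ kap M h = 0 := by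
  have e : kM d M = adjoin ℚ {sqr (d : Om)} ⊔ kQ M := by
    rw [kM, kQ, ← adjoin_union, Set.singleton_union]
  have h1 : h ∈ (adjoin ℚ {sqr (d : Om)}).fixingSubgroup ↔ chi d h = 0 := by
    rw [chi, kch, Int.cast_natCast, IntermediateField.mem_fixingSubgroup_iff]
    constructor
    · intro H
      rw [if_pos (H _ (mem_adjoin_simple_self ℚ _))]
    · intro H x hx
      have H' : h (sqr (d : Om)) = sqr d := by
        by_contra H'
        rw [if_neg H'] at H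
        exact one_ne_zero H
      induction hx using adjoin_induction with
      | mem x hx => rwa [Set.mem_singleton_iff.1 hx]
      | algebraMap x => simp
      | add x y _ _ h1 h2 => rw [map_add, h1, h2]
      | inv x _ h1 => rw [map_inv₀, h1]
      | mul x y _ _ h1 h2 => rw [map_mul, h1, h2]
  rw [e, fixingSubgroup_sup, Subgroup.mem_inf, h1, K.mem]

end TQ

theorem rowTQ : OfTQ := fun C _ D G _ K =>
  { gal := fun _ _ _ _ _ _ _ _ _ h => TQ.gal C h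
    emb := fun _ _ _ _ _ _ _ M _ _ _ γ _ _ h h' => by
      obtain ⟨j, h1, h2, h3⟩ := TQ.emb C h h' le_rfl
      have h4 : γ ^ 2 ^ M = 1 := by
        rw [← (TQ.gal C h).2.2.2.2.1, pow_orderOf_eq_one]
      refine ⟨j, by simpa using h1, h2, fun y => ?_⟩
      rw [h3, h4]
      simp
    bot := fun _ _ _ _ _ _ _ _ _ _ _ _ _ _ _ _ h h' => by
      obtain ⟨j, h1, -, -, -, h2⟩ := TQ.sub C h h' (Nat.zero_le _)
      exact ⟨j, h1, by simpa using h2⟩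
    ex := TQ.ex C K
    mem := TQ.mem K
    rcp := fun _ _ _ _ _ _ _ _ _ h => TQ.rcp D G C h }

end Pool.Agent.MP_1246c0_nt.H25
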